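import Pool.Agent.V5helper56.LI.Many

/-!
# Cyclotomic fields: the prime above `p`, and primes which are inert
-/

set_option linter.style.haveILetI false
set_option linter.unusedSectionVars false
set_option linter.unusedVariables false

open NumberField Ideal Module IntermediateField Pool.Agent.W569.FM Pool.Agent.W571.FM Pool.Agent.R417.FK
open Pool.Agent.Helper832_EG
open scoped Pointwise nonZeroDivisors

namespace Pool.Agent.V5helper56.LI

section
variable {C : Type} [Field C] [NumberField C]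

lemma liesOver_of_mem {q : ℕ} (hq : q.Prime) {P : Ideal (𝓞 C)} (hP : P.IsPrime) (h : (q : 𝓞 C) ∈ P) :
    P.LiesOver (Ideal.span {(q : ℤ)}) := by
  have hm : (Ideal.span {(q : ℤ)}).IsMaximal :=
    PrincipalIdealRing.isMaximal_of_irreducible (Nat.prime_iff_prime_int.1 hq).irreducible
  refine ⟨hm.eq_of_le ?_ ?_⟩
  · haveI := hP
    exact Ideal.IsPrime.ne_top inferInstance
  · rw [Ideal.span_singleton_le_iff_mem, Ideal.mem_comap, map_natCast]
    exact h

/-- There is only one prime above `p` in the field of the `p ^ (r + 1)`-th roots of unity. -/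
theorem cyc_one {p : ℕ} [hp : Fact p.Prime] (r : ℕ) [hC : IsCyclotomicExtension {p ^ (r + 1)} ℚ C]
    {P Q : Ideal (𝓞 C)} (hP : P.IsPrime) (hQ : Q.IsPrime) (hpP : (p : 𝓞 C) ∈ P) (hpQ : (p : 𝓞 C) ∈ Q) :
    P = Q := by
  haveI := hP
  haveI := hQ
  haveI := liesOver_of_mem hp.out hP hpP
  haveI := liesOver_of_mem hp.out hQ hpQ
  have hζ := hC.zeta_spec
  rw [IsCyclotomicExtension.Rat.eq_span_zeta_sub_one_of_liesOver p r C hζ P,
    IsCyclotomicExtension.Rat.eq_span_zeta_sub_one_of_liesOver p r C hζ Q]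

/-- There is only one prime above `q` in the field of the `p`-th roots of unity if `q` is a primitive
root modulo `p`. -/
theorem cyc_inert {p : ℕ} [hp : Fact p.Prime] [hC : IsCyclotomicExtension {p} ℚ C] {q : ℕ} (hq : q.Prime)
    (hord : orderOf (q : ZMod p) = p - 1)
    {P Q : Ideal (𝓞 C)} (hP : P.IsPrime) (hQ : Q.IsPrime) (hpP : (q : 𝓞 C) ∈ P) (hpQ : (q : 𝓞 C) ∈ Q) :
    P = Q := by
  classical
  haveI : Fact q.Prime := ⟨hq⟩
  haveI := hP
  haveI := hQ
  haveI hPl := liesOver_of_mem hq hP hpP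
  haveI hQl := liesOver_of_mem hq hQ hpQ
  have hqp : ¬ q ∣ p := by
    intro h
    have h1 : q = p := (Nat.prime_dvd_prime_iff_eq hq hp.out).1 h
    rw [h1, CharP.cast_eq_zero, orderOf_zero] at hord
    have := hp.out.one_lt
    omega
  haveI : IsGalois ℚ C := IsCyclotomicExtension.isGalois {p} ℚ C
  haveI hm : (Ideal.span {(q : ℤ)}).IsMaximal :=
    PrincipalIdealRing.isMaximal_of_irreducible (Nat.prime_iff_prime_int.1 hq).irreducible
  have hne : (Ideal.span {(q : ℤ)}) ≠ ⊥ := by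
    rw [Ne, Ideal.span_singleton_eq_bot]
    exact_mod_cast hq.ne_zero
  have h1 := Ideal.ncard_primesOver_mul_ramificationIdxIn_mul_inertiaDegIn (Ideal.span {(q : ℤ)}) (𝓞 C) Gal(C/ℚ)
  rw [IsCyclotomicExtension.Rat.inertiaDegIn_eq_of_not_dvd (m := p) q C hqp,
    IsCyclotomicExtension.Rat.ramificationIdxIn_eq_of_not_dvd (m := p) q C hqp, hord, one_mul,
    IsGalois.card_aut_eq_finrank, IsCyclotomicExtension.finrank C (Polynomial.cyclotomic.irreducible_rat hp.out.pos),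
    Nat.totient_prime hp.out] at h1
  have h2 : ((Ideal.span {(q : ℤ)}).primesOver (𝓞 C)).ncard = 1 := by
    have := hp.out.one_lt
    exact Nat.eq_of_mul_eq_mul_right (by omega : 0 < p - 1) (by rw [h1, one_mul])
  obtain ⟨R, hR⟩ := Set.ncard_eq_one.1 h2
  have hPR : P ∈ (Ideal.span {(q : ℤ)}).primesOver (𝓞 C) := ⟨hP, hPl⟩
  have hQR : Q ∈ (Ideal.span {(q : ℤ)}).primesOver (𝓞 C) := ⟨hQ, hQl⟩
  rw [hR, Set.mem_singleton_iff] at hPR hQR
  rw [hPR, hQR]

/-- A primitive `p`-th root of unity is not a `p`-th power modulo the prime above `q`. -/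
theorem cyc_unit {p : ℕ} [hp : Fact p.Prime] [hC : IsCyclotomicExtension {p} ℚ C] {q : ℕ} (hq : q.Prime)
    (hord : orderOf (q : ZMod p) = p - 1) (hq2 : ¬ p ^ 2 ∣ q ^ (p - 1) - 1)
    {P : Ideal (𝓞 C)} (hP : P.IsMaximal) (hpP : (q : 𝓞 C) ∈ P) :
    (p : 𝓞 C) ∉ P ∧ ∃ u : (𝓞 C)ˣ, ∀ z : 𝓞 C, (u : 𝓞 C) - z ^ p ∉ P := by
  classical
  haveI : Fact q.Prime := ⟨hq⟩
  haveI := hP.isPrime
  haveI hPl := liesOver_of_mem hq hP.isPrime hpP
  have hqp : ¬ q ∣ p := by
    intro h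
    have h1 : q = p := (Nat.prime_dvd_prime_iff_eq hq hp.out).1 h
    rw [h1, CharP.cast_eq_zero, orderOf_zero] at hord
    have := hp.out.one_lt
    omega
  have hpnP : (p : 𝓞 C) ∉ P := by
    intro h
    have hcop : Nat.Coprime p q := (Nat.coprime_comm.1 ((Nat.Prime.coprime_iff_not_dvd hq).2 hqp))
    obtain ⟨a, b, hab⟩ := (Nat.isCoprime_iff_coprime.2 hcop)
    have h1 : (1 : 𝓞 C) ∈ P := by
      have h2 : ((a * (p : ℤ) + b * (q : ℤ) : ℤ) : 𝓞 C) = 1 := by rw [hab]; simp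
      rw [← h2]
      push_cast
      exact P.add_mem (P.mul_mem_left _ h) (P.mul_mem_left _ hpP)
    exact hP.ne_top ((Ideal.eq_top_iff_one P).2 h1)
  refine ⟨hpnP, ?_⟩
  have hζ : IsPrimitiveRoot (IsCyclotomicExtension.zeta p ℚ C) p := hC.zeta_spec
  have hζ' : IsPrimitiveRoot hζ.toInteger p := hζ.toInteger_isPrimitiveRoot
  have hζu : IsUnit hζ.toInteger := hζ'.isUnit hp.out.ne_zero
  refine ⟨hζu.unit, fun z hz => ?_⟩
  rw [IsUnit.unit_spec] at hz
  have hP0 : P ≠ ⊥ := Ideal.IsMaximal.ne_bot_of_isIntegral_int P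
  letI : Field (𝓞 C ⧸ P) := Ideal.Quotient.field P
  haveI : Finite (𝓞 C ⧸ P) := Ideal.finiteQuotientOfFreeOfNeBot P hP0
  letI : Fintype (𝓞 C ⧸ P) := Fintype.ofFinite _
  set w : 𝓞 C ⧸ P := Ideal.Quotient.mk P z with hw
  set ξ : 𝓞 C ⧸ P := Ideal.Quotient.mk P hζ.toInteger with hξ
  have h1 : w ^ p = ξ := by
    have h2 := Ideal.Quotient.eq_zero_iff_mem.2 hz
    rw [map_sub, map_pow, sub_eq_zero] at h2
    exact h2.symm
  have hξp : ξ ^ p = 1 := by
    rw [hξ, ← map_pow, hζ'.pow_eq_one, map_one]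
  have hξ1 : ξ ≠ 1 := by
    intro h
    have h2 : hζ.toInteger - 1 ∈ P := by
      rw [← Ideal.Quotient.eq_zero_iff_mem, map_sub, map_one, ← hξ, h, sub_self]
    have h3 : hζ.toInteger - 1 ∣ (p : 𝓞 C) := by
      have h4 := (IsCyclotomicExtension.Rat.zeta_sub_one_dvd_intCast_iff' p hζ (n := (p : ℤ))).2 (dvd_refl _)
      simpa using h4
    exact hpnP (P.mem_of_dvd h3 h2)
  have hordw : orderOf w = p ^ 2 := by
    have h2 : w ^ p ^ 1 ≠ 1 := by rw [pow_one, h1]; exact hξ1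
    have h3 : w ^ p ^ (1 + 1) = 1 := by rw [pow_succ, pow_mul, pow_one, h1, hξp]
    exact orderOf_eq_prime_pow h2 h3
  have hw0 : w ≠ 0 := by
    intro h
    rw [h, zero_pow hp.out.ne_zero] at h1
    rw [← h1, zero_pow hp.out.ne_zero] at hξp
    exact zero_ne_one hξp
  have h2 := orderOf_dvd_of_pow_eq_one (FiniteField.pow_card_sub_one_eq_one w hw0)
  rw [hordw, ← Nat.card_eq_fintype_card] at h2
  have h3 : Nat.card (𝓞 C ⧸ P) = q ^ (p - 1) := by
    have h4 := Ideal.absNorm_eq_pow_inertiaDeg' P hq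
    haveI hm : (Ideal.span {(q : ℤ)}).IsMaximal :=
      PrincipalIdealRing.isMaximal_of_irreducible (Nat.prime_iff_prime_int.1 hq).irreducible
    rw [Ideal.inertiaDeg'_eq_inertiaDeg, IsCyclotomicExtension.Rat.inertiaDeg_eq_of_not_dvd (m := p) q C P hqp, hord] at h4
    rw [← h4, Ideal.absNorm_apply, Submodule.cardQuot_apply]
  rw [h3] at h2
  exact hq2 h2

end

end Pool.Agent.V5helper56.LI
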