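import Pool.Agent.Helper832_EG.PD13

/-!
# The Herbrand quotient of the units, for cyclic extensions of odd prime degree
-/

set_option linter.style.haveILetI false
set_option linter.unusedSectionVars false
set_option linter.unusedVariables false

open NumberField Ideal Module Pool.Agent.TeamU
open Pool.Agent.Helper832_EG
open scoped Pointwise nonZeroDivisors

namespace Pool.Agent.V5helper56.LI

section
variable {K L : Type} [Field K] [NumberField K] [Field L] [NumberField L] [Algebra K L] [IsGalois K L]

lemma rank_units (F : Type) [Field F] [NumberField F] :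
    finrank ℤ (Additive (𝓞 F)ˣ) + 1 = Fintype.card (InfinitePlace F) := by
  classical
  have h1 : finrank ℤ (Additive (𝓞 F)ˣ) = Units.rank F := Units.finrank_eq F
  have h2 : Units.rank F = Fintype.card (InfinitePlace F) - 1 := rfl
  have h3 : 0 < Fintype.card (InfinitePlace F) := Fintype.card_pos
  omega

lemma herbInf {p : ℕ} [hp : Fact p.Prime] (hinf : p ≠ 2 ∨ IsTotallyComplex K) (hcard : Nat.card Gal(L/K) = p)
    {σ : Gal(L/K)} (hσ : ∀ g : Gal(L/K), g ∈ Subgroup.zpowers σ) :
    p * (nU p σ).range.relIndex (dU σ).ker ≤ (dU σ).range.relIndex (nU p σ).ker ∧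
      (nU p σ).range.relIndex (dU σ).ker ≠ 0 := by
  rcases hinf with h2 | h
  · haveI : IsUnramifiedAtInfinitePlaces K L := by
      refine IsUnramifiedAtInfinitePlaces_of_odd_card_aut ?_
      rw [hcard]
      exact hp.out.odd_of_ne_two h2
    refine abs_herb (sU σ) (dU σ) (nU p σ) ?_ (fun _ => rfl) (fun _ => rfl) ?_
    · intro u
      apply Units.ext
      rw [sU_iter]
      have : σ ^ p = 1 := by rw [← hcard]; exact pow_card_eq_one'
      rw [this, one_smul]
    · rw [finrank_ker_dU hσ]
      have h1 := rank_units K
      have h3 := rank_units L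
      have h4 := IsUnramifiedAtInfinitePlaces.card_infinitePlace K L
      have h5 : finrank K L = p := by rw [← IsGalois.card_aut_eq_finrank K L, hcard]
      rw [h5, ← h1, ← h3] at h4
      rw [h4, mul_comm]
  · exact herbU hcard hσ

end

end Pool.Agent.V5helper56.LI
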