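import Pool.Agent.Helper832_EG.PD13

/-!
# The norm of a tame ramified prime
-/

set_option linter.style.haveILetI false
set_option linter.unusedSectionVars false
set_option linter.unusedVariables false

open NumberField Ideal Module
open Pool.Agent.Helper832_EG
open scoped Pointwise nonZeroDivisors

namespace Pool.Agent.V5helper56.LI

section
variable {K L : Type} [Field K] [NumberField K] [Field L] [NumberField L] [Algebra K L] [IsGalois K L]
  {p : ℕ} [hp : Fact p.Prime]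

/-- The residue field at a tame prime whose inertia group is everything is the residue field below. -/
theorem res_surj {P : Ideal (𝓞 L)} (hP : P.IsMaximal) (hpP : (p : 𝓞 L) ∉ P) {σ : Gal(L/K)}
    (hcard : Nat.card Gal(L/K) = p) (hσ : ∀ g : Gal(L/K), g ∈ Subgroup.zpowers σ)
    (hσP : ∀ x : 𝓞 L, σ • x - x ∈ P) (y : 𝓞 L) :
    ∃ z : 𝓞 K, algebraMap (𝓞 K) (𝓞 L) z - y ∈ P := by
  classical
  haveI : IsGaloisGroup Gal(L/K) (𝓞 K) (𝓞 L) := isGalGrp
  haveI : Algebra.IsIntegral (𝓞 K) (𝓞 L) := Algebra.IsIntegral.tower_top (R := ℤ)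
  have hord : orderOf σ = p := by rw [orderOf_eq_card_of_forall_mem_zpowers hσ, hcard]
  -- the trace
  set s : 𝓞 L := ∑ i ∈ Finset.range p, (σ ^ i) • y with hs
  have hsσ : σ • s = s := by
    rw [hs, Finset.smul_sum]
    have h1 : ∀ i, σ • ((σ ^ i) • y) = (σ ^ (i + 1)) • y := by
      intro i; rw [smul_smul, ← pow_succ']
    simp only [h1]
    rw [← add_right_cancel_iff (a := (σ ^ 0) • y), ← Finset.sum_range_succ' (fun i => (σ ^ i) • y),
      Finset.sum_range_succ]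
    congr 1
    rw [← hord, pow_orderOf_eq_one, pow_zero]
  have hsinv : ∀ g : Gal(L/K), g • s = s := by
    intro g
    obtain ⟨n, rfl⟩ := Subgroup.mem_zpowers_iff.1 (hσ g)
    have h4 : σ ∈ MulAction.stabilizer Gal(L/K) s := hsσ
    exact Subgroup.zpow_mem _ h4 n
  obtain ⟨t, ht⟩ := Algebra.IsInvariant.isInvariant (A := 𝓞 K) (G := Gal(L/K)) s hsinv
  have hsy : s - (p : 𝓞 L) * y ∈ P := by
    have h1 : s - (p : 𝓞 L) * y = ∑ i ∈ Finset.range p, ((σ ^ i) • y - y) := by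
      rw [Finset.sum_sub_distrib, ← hs]; simp
    rw [h1]
    exact P.sum_mem fun i _ => iter_cong hσP i _
  -- an inverse of `p`
  haveI hPu : (P.under (𝓞 K)).IsMaximal := Ideal.IsMaximal.under (𝓞 K) P
  obtain ⟨a, b, hb, hab⟩ := hPu.exists_inv (x := (p : 𝓞 K)) (by
    rw [Ideal.mem_comap, map_natCast]; exact hpP)
  refine ⟨a * t, ?_⟩
  have hb' : algebraMap (𝓞 K) (𝓞 L) b ∈ P := hb
  have h1 : algebraMap (𝓞 K) (𝓞 L) (a * t) - y =
      algebraMap (𝓞 K) (𝓞 L) a * (s - (p : 𝓞 L) * y) - algebraMap (𝓞 K) (𝓞 L) b * y := by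
    have h2 : algebraMap (𝓞 K) (𝓞 L) a * (p : 𝓞 L) + algebraMap (𝓞 K) (𝓞 L) b = 1 := by
      rw [← map_one (algebraMap (𝓞 K) (𝓞 L)), ← hab, map_add, map_mul, map_natCast]
    rw [map_mul, ht]
    linear_combination y * h2
  rw [h1]
  exact P.sub_mem (P.mul_mem_left _ hsy) (P.mul_mem_right _ hb')

/-- **The norm of a tame ramified prime is congruent to `1` modulo `p`.** -/
theorem tame_norm {P : Ideal (𝓞 L)} (hP : P.IsMaximal) (hpP : (p : 𝓞 L) ∉ P) {σ : Gal(L/K)}
    (hcard : Nat.card Gal(L/K) = p) (hσ : ∀ g : Gal(L/K), g ∈ Subgroup.zpowers σ)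
    (hσP : ∀ x : 𝓞 L, σ • x - x ∈ P) : p ∣ Ideal.absNorm (P.under (𝓞 K)) - 1 := by
  classical
  haveI : IsGaloisGroup Gal(L/K) (𝓞 K) (𝓞 L) := isGalGrp
  haveI : Algebra.IsIntegral (𝓞 K) (𝓞 L) := Algebra.IsIntegral.tower_top (R := ℤ)
  haveI := hP.isPrime
  have hP0 : P ≠ ⊥ := Ideal.IsMaximal.ne_bot_of_isIntegral_int P
  have hord : orderOf σ = p := by rw [orderOf_eq_card_of_forall_mem_zpowers hσ, hcard]
  -- an element which is not fixed
  obtain ⟨x, hx⟩ : ∃ x : 𝓞 L, σ • x ≠ x := by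
    by_contra hcon
    push Not at hcon
    have h1 : σ = 1 := by
      haveI : FaithfulSMul Gal(L/K) (𝓞 L) := IsGaloisGroup.faithful (𝓞 K)
      exact FaithfulSMul.eq_of_smul_eq_smul (α := 𝓞 L) fun a => by rw [hcon a, one_smul]
    rw [h1, orderOf_one] at hord
    exact hp.out.one_lt.ne hord
  set y : 𝓞 L := σ • x - x with hy
  have hy0 : y ≠ 0 := sub_ne_zero.2 hx
  obtain ⟨n, hn, hn'⟩ : ∃ n : ℕ, y ∈ P ^ n ∧ y ∉ P ^ (n + 1) := by
    have h1 : ∃ n : ℕ, y ∉ P ^ (n + 1) := by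
      by_contra hcon
      push Not at hcon
      have h2 : y ∈ (⨅ i : ℕ, P ^ i : Ideal (𝓞 L)) := by
        rw [Ideal.mem_iInf]
        intro i
        exact Ideal.pow_le_pow_right (Nat.le_succ i) (hcon i)
      rw [Ideal.iInf_pow_eq_bot_of_isDomain _ hP.ne_top, Ideal.mem_bot] at h2
      exact hy0 h2
    refine ⟨Nat.find h1, ?_, Nat.find_spec h1⟩
    rcases Nat.eq_zero_or_pos (Nat.find h1) with h2 | h2
    · rw [h2, pow_zero, Ideal.one_eq_top]; exact Submodule.mem_top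
    · have h3 := Nat.find_min h1 (Nat.sub_lt h2 one_pos)
      have h4 : Nat.find h1 - 1 + 1 = Nat.find h1 := Nat.succ_pred_eq_of_pos h2
      rw [h4, not_not] at h3
      exact h3
  -- the action on the powers of `P`
  have hPP : ∀ m : ℕ, ∀ z ∈ P ^ m, σ • z ∈ P ^ m := by
    intro m z hz
    have h1 : Ideal.map (MulSemiringAction.toRingHom Gal(L/K) (𝓞 L) σ) P ≤ P := by
      rw [Ideal.map_le_iff_le_comap]
      intro w hw
      rw [Ideal.mem_comap]
      show σ • w ∈ P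
      have h2 := P.add_mem (hσP w) hw
      rwa [sub_add_cancel] at h2
    have h2 := Ideal.mem_map_of_mem (MulSemiringAction.toRingHom Gal(L/K) (𝓞 L) σ) hz
    rw [Ideal.map_pow] at h2
    exact Ideal.pow_right_mono h1 m h2
  obtain ⟨d, e, he, hde⟩ := Ideal.exists_mul_add_mem_pow_succ hP0 y (σ • y) hn hn' (hPP n y hn)
  have hmul : ∀ z ∈ P ^ n, σ • z - d * z ∈ P ^ (n + 1) := by
    intro z hz
    obtain ⟨d', e', he', hde'⟩ := Ideal.exists_mul_add_mem_pow_succ hP0 y z hn hn' hz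
    have h1 : σ • z - d * z = y * (σ • d' - d') * d + (e * (σ • d') + σ • e' - d * e') := by
      have h2 : σ • z = (y * d + e) * (σ • d') + σ • e' := by
        rw [← hde', smul_add, smul_mul', hde]
      rw [h2, ← hde']
      ring
    rw [h1]
    refine Ideal.add_mem _ (Ideal.mul_mem_right _ _ ?_) (Ideal.sub_mem _ (Ideal.add_mem _
      (Ideal.mul_mem_right _ _ he) (hPP _ _ he')) (Ideal.mul_mem_left _ _ he'))
    rw [pow_succ]
    exact Ideal.mul_mem_mul hn (hσP d')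
  have hit : ∀ j : ℕ, (σ ^ j) • y ∈ P ^ n ∧ (σ ^ j) • y - d ^ j * y ∈ P ^ (n + 1) := by
    intro j
    induction j with
    | zero =>
      rw [pow_zero, pow_zero, one_smul, one_mul, sub_self]
      exact ⟨hn, Ideal.zero_mem _⟩
    | succ j ih =>
      refine ⟨?_, ?_⟩
      · rw [pow_succ', mul_smul]
        exact hPP n _ ih.1
      · have h1 := hmul _ ih.1
        have h2 : (σ ^ (j + 1)) • y - d ^ (j + 1) * y = (σ • ((σ ^ j) • y) - d * ((σ ^ j) • y)) +
            d * ((σ ^ j) • y - d ^ j * y) := by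
          rw [pow_succ', mul_smul]
          ring
        rw [h2]
        exact Ideal.add_mem _ h1 (Ideal.mul_mem_left _ _ ih.2)
  have hsum : ∑ j ∈ Finset.range p, (σ ^ j) • y = 0 := by
    have h1 : ∀ j, (σ ^ j) • y = (σ ^ (j + 1)) • x - (σ ^ j) • x := by
      intro j
      rw [hy, smul_sub, smul_smul, ← pow_succ]
    rw [Finset.sum_congr rfl fun j _ => h1 j, Finset.sum_range_sub (fun j => (σ ^ j) • x), ← hord,
      pow_orderOf_eq_one, pow_zero, sub_self]
  have hd : (∑ j ∈ Finset.range p, d ^ j) ∈ P := by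
    have h1 : y * (∑ j ∈ Finset.range p, d ^ j) ∈ P ^ (n + 1) := by
      have h2 : y * (∑ j ∈ Finset.range p, d ^ j) = - ∑ j ∈ Finset.range p, ((σ ^ j) • y - d ^ j * y) := by
        rw [Finset.sum_sub_distrib, hsum, zero_sub, neg_neg, Finset.mul_sum]
        exact Finset.sum_congr rfl fun j _ => mul_comm _ _
      rw [h2]
      exact Ideal.neg_mem_iff _ |>.2 (Ideal.sum_mem _ fun j _ => (hit j).2)
    exact Ideal.mem_prime_of_mul_mem_pow hP0 hn' h1
  obtain ⟨z, hz⟩ := res_surj hP hpP hcard hσ hσP d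
  haveI hPu : (P.under (𝓞 K)).IsMaximal := Ideal.IsMaximal.under (𝓞 K) P
  have hPu0 : P.under (𝓞 K) ≠ ⊥ := Ideal.IsMaximal.ne_bot_of_isIntegral_int _
  letI : Field (𝓞 K ⧸ P.under (𝓞 K)) := Ideal.Quotient.field _
  haveI : Finite (𝓞 K ⧸ P.under (𝓞 K)) := Ideal.finiteQuotientOfFreeOfNeBot _ hPu0
  letI : Fintype (𝓞 K ⧸ P.under (𝓞 K)) := Fintype.ofFinite _
  have hz1 : (∑ j ∈ Finset.range p, z ^ j) ∈ P.under (𝓞 K) := by
    rw [Ideal.mem_comap, map_sum]
    have h1 : ∑ j ∈ Finset.range p, algebraMap (𝓞 K) (𝓞 L) (z ^ j) =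
        ∑ j ∈ Finset.range p, (algebraMap (𝓞 K) (𝓞 L) z ^ j - d ^ j) + ∑ j ∈ Finset.range p, d ^ j := by
      rw [Finset.sum_sub_distrib, sub_add_cancel]
      exact Finset.sum_congr rfl fun j _ => map_pow _ _ _
    rw [h1]
    refine P.add_mem (P.sum_mem fun j _ => ?_) hd
    obtain ⟨c, hc⟩ := sub_dvd_pow_sub_pow (algebraMap (𝓞 K) (𝓞 L) z) d j
    rw [hc]
    exact P.mul_mem_right _ hz
  set w : 𝓞 K ⧸ P.under (𝓞 K) := Ideal.Quotient.mk _ z with hw
  have hw1 : ∑ j ∈ Finset.range p, w ^ j = 0 := by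
    have h1 := Ideal.Quotient.eq_zero_iff_mem.2 hz1
    rw [map_sum] at h1
    simpa using h1
  have hwp : w ^ p = 1 := by
    have h1 := mul_geom_sum w p
    rw [hw1, mul_zero] at h1
    exact (sub_eq_zero.1 h1.symm)
  have hwne : w ≠ 1 := by
    intro h
    rw [h] at hw1
    simp only [one_pow, Finset.sum_const, Finset.card_range, nsmul_eq_mul, mul_one] at hw1
    have h1 : (Ideal.Quotient.mk (P.under (𝓞 K)) (p : 𝓞 K)) = 0 := by rw [map_natCast]; exact hw1
    rw [Ideal.Quotient.eq_zero_iff_mem, Ideal.mem_comap, map_natCast] at h1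
    exact hpP h1
  have hw0 : w ≠ 0 := by
    intro h
    rw [h, zero_pow hp.out.ne_zero] at hwp
    exact zero_ne_one hwp
  have hordw : orderOf w = p := orderOf_eq_prime hwp hwne
  have h1 := FiniteField.pow_card_sub_one_eq_one w hw0
  have h2 := orderOf_dvd_of_pow_eq_one h1
  rw [hordw, ← Nat.card_eq_fintype_card] at h2
  rw [Ideal.absNorm_apply, Submodule.cardQuot_apply]
  exact h2

end

end Pool.Agent.V5helper56.LI
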