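import Pool.Agent.V5helper56.LI.Chr
import Pool.Agent.V5helper56.LI.Inf
import Pool.Agent.V5helper56.LI.Tame

/-!
# Characters ramified at several tame primes
-/

set_option linter.style.haveILetI false
set_option linter.unusedSectionVars false
set_option linter.unusedVariables false

open NumberField Ideal Module IntermediateField Pool.Agent.W569.FM Pool.Agent.W571.FM Pool.Agent.R417.FK
open Pool.Agent.Helper832_EG
open scoped Pointwise nonZeroDivisors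

namespace Pool.Agent.V5helper56.LI

section
variable {K L : Type} [Field K] [NumberField K] [Field L] [NumberField L] [Algebra K L] [IsGalois K L]

/-- The extension is ramified exactly at the primes `P i`, which are totally ramified. -/
structure ManyRam (K L : Type) [Field K] [NumberField K] [Field L] [NumberField L] [Algebra K L]
    (p : ℕ) {ι : Type} (P : ι → Ideal (𝓞 L)) : Prop where
  max : ∀ i, (P i).IsMaximal
  ram : ∀ i, (P i).ramificationIdx (𝓞 K) = p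
  other : ∀ Q : Ideal (𝓞 L), Q.IsMaximal → (∀ i, Q ≠ P i) → Q.ramificationIdx (𝓞 K) = 1

lemma ManyRam.dvd {p : ℕ} {ι : Type} {P : ι → Ideal (𝓞 L)} (h : ManyRam K L p P) {I : Ideal (𝓞 L)}
    (hI : ∀ i, p ∣ multiplicity (P i) I) :
    ∀ Q : Ideal (𝓞 L), Q.IsMaximal → Q.ramificationIdx (𝓞 K) ∣ multiplicity Q I := by
  intro Q hQ
  by_cases hQP : ∃ i, Q = P i
  · obtain ⟨i, rfl⟩ := hQP
    rw [h.ram]; exact hI i
  · push Not at hQP
    rw [h.other Q hQ hQP]; exact one_dvd _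

variable {p : ℕ} [hp : Fact p.Prime] (hinf : p ≠ 2 ∨ IsTotallyComplex K) (hcard : Nat.card Gal(L/K) = p)
  (hcl : ¬ p ∣ classNumber K) {σ : Gal(L/K)} (hσ : ∀ g : Gal(L/K), g ∈ Subgroup.zpowers σ)
  {ι : Type} [Fintype ι] {P : ι → Ideal (𝓞 L)} (hR : ManyRam K L p P)
include hcard hcl hσ hR

lemma relIndex_le_many : (dU σ).range.relIndex (nU p σ).ker ≤ p ^ Fintype.card ι := by
  classical
  have hex : ∀ y : (nU p σ).ker, ∃ b : 𝓞 L, b ≠ 0 ∧ σ • b = (y : (𝓞 L)ˣ) * b := fun y =>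
    h90 hcard hσ ((MonoidHom.mem_ker).1 y.2)
  choose b hb hyb using hex
  have hspan : ∀ y, Ideal.span {b y} ≠ ⊥ := fun y => by simpa using hb y
  rw [Subgroup.relIndex, Subgroup.index_eq_card]
  have hinj : Function.Injective (fun (c : (nU p σ).ker ⧸ ((dU σ).range.subgroupOf (nU p σ).ker)) (i : ι) =>
      ((multiplicity (P i) (Ideal.span {b c.out}) : ℕ) : ZMod p)) := by
    intro c c' hcc
    have h1 : ∀ i, ((multiplicity (P i) (Ideal.span {b c.out}) : ℕ) : ZMod p) =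
      ((multiplicity (P i) (Ideal.span {b c'.out}) : ℕ) : ZMod p) := fun i => congrFun hcc i
    -- the element `y y' ^ (p-1)`
    have h2 : ((c.out : (𝓞 L)ˣ) * (c'.out : (𝓞 L)ˣ) ^ (p - 1)) ∈ (dU σ).range := by
      refine mem_range_dU hcard hcl hσ (b := b c.out * b c'.out ^ (p - 1)) (mul_ne_zero (hb _) (pow_ne_zero _ (hb _))) ?_ ?_
      · rw [smul_mul', smul_pow', hyb, hyb, Units.val_mul, Units.val_pow_eq_pow_val]; ring
      · apply hR.dvd
        intro i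
        rw [← Ideal.span_singleton_mul_span_singleton, ← Ideal.span_singleton_pow,
          mult_mul (hR.max i) (hspan _) (pow_ne_zero _ (hspan _)), mult_pow (hR.max i) (hspan _)]
        rw [← ZMod.natCast_eq_zero_iff, Nat.cast_add, h1, Nat.cast_mul, Nat.cast_sub hp.out.one_lt.le, Nat.cast_one]
        simp
    have h3 : ((c'.out : (𝓞 L)ˣ) ^ p) ∈ (dU σ).range := by
      refine mem_range_dU hcard hcl hσ (b := b c'.out ^ p) (pow_ne_zero _ (hb _)) ?_ ?_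
      · rw [smul_pow', hyb, Units.val_pow_eq_pow_val]; ring
      · apply hR.dvd
        intro i
        rw [← Ideal.span_singleton_pow, mult_pow (hR.max i) (hspan _)]
        exact dvd_mul_right _ _
    have h4 : ((c'.out : (𝓞 L)ˣ))⁻¹ * (c.out : (𝓞 L)ˣ) ∈ (dU σ).range := by
      have h5 := (dU σ).range.mul_mem ((dU σ).range.inv_mem h3) h2
      have h6 : ((c'.out : (𝓞 L)ˣ) ^ p)⁻¹ * ((c.out : (𝓞 L)ˣ) * (c'.out : (𝓞 L)ˣ) ^ (p - 1)) =
          ((c'.out : (𝓞 L)ˣ))⁻¹ * (c.out : (𝓞 L)ˣ) := by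
        have h7 : (c'.out : (𝓞 L)ˣ) ^ p = (c'.out : (𝓞 L)ˣ) ^ (p - 1) * (c'.out : (𝓞 L)ˣ) := by
          rw [← pow_succ, Nat.sub_add_cancel hp.out.pos]
        rw [h7]
        generalize (c'.out : (𝓞 L)ˣ) ^ (p - 1) = z
        generalize (c'.out : (𝓞 L)ˣ) = z'
        generalize (c.out : (𝓞 L)ˣ) = z''
        rw [mul_inv, mul_comm z⁻¹, mul_assoc, mul_comm z'' z, inv_mul_cancel_left]
      rwa [h6] at h5
    have h8 : (QuotientGroup.mk c'.out : (nU p σ).ker ⧸ ((dU σ).range.subgroupOf (nU p σ).ker)) = QuotientGroup.mk c.out :=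
      QuotientGroup.eq.2 ((Subgroup.mem_subgroupOf).2 h4)
    have h9 : ∀ q : (nU p σ).ker ⧸ ((dU σ).range.subgroupOf (nU p σ).ker), QuotientGroup.mk q.out = q :=
      fun q => Quotient.out_eq q
    rw [h9, h9] at h8
    exact h8.symm
  calc Nat.card ((nU p σ).ker ⧸ ((dU σ).range.subgroupOf (nU p σ).ker)) ≤ Nat.card (ι → ZMod p) :=
        Nat.card_le_card_of_injective _ hinj
    _ = p ^ Fintype.card ι := by simp

omit hcard hcl hσ hR in
/-- The units which are `p`-th powers modulo the prime below `Q`. -/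
def powU (p : ℕ) [hp : Fact p.Prime] (Q : Ideal (𝓞 L)) : Subgroup (𝓞 K)ˣ where
  carrier := {v | ∃ z : 𝓞 K, algebraMap (𝓞 K) (𝓞 L) ((v : 𝓞 K) - z ^ p) ∈ Q}
  mul_mem' := by
    rintro v v' ⟨z, hz⟩ ⟨z', hz'⟩
    refine ⟨z * z', ?_⟩
    have e : algebraMap (𝓞 K) (𝓞 L) (((v * v' : (𝓞 K)ˣ) : 𝓞 K) - (z * z') ^ p) =
        algebraMap (𝓞 K) (𝓞 L) v * algebraMap (𝓞 K) (𝓞 L) ((v' : 𝓞 K) - z' ^ p) +
        algebraMap (𝓞 K) (𝓞 L) (z' ^ p) * algebraMap (𝓞 K) (𝓞 L) ((v : 𝓞 K) - z ^ p) := by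
      rw [← map_mul, ← map_mul, ← map_add, Units.val_mul]
      congr 1
      ring
    rw [e]
    exact Q.add_mem (Q.mul_mem_left _ hz') (Q.mul_mem_left _ hz)
  one_mem' := ⟨1, by rw [Units.val_one, one_pow, sub_self, map_zero]; exact Q.zero_mem⟩
  inv_mem' := by
    rintro v ⟨z, hz⟩
    refine ⟨((v⁻¹ : (𝓞 K)ˣ) : 𝓞 K) * z ^ (p - 1), ?_⟩
    have hvv : ((v⁻¹ : (𝓞 K)ˣ) : 𝓞 K) * v = 1 := by rw [← Units.val_mul, inv_mul_cancel, Units.val_one]
    have h1 : (v : 𝓞 K) - z ^ p ∣ (v : 𝓞 K) ^ (p - 1) - (z ^ p) ^ (p - 1) := sub_dvd_pow_sub_pow _ _ _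
    obtain ⟨c, hc⟩ := h1
    have hpp : p = (p - 1) + 1 := (Nat.sub_add_cancel hp.out.pos).symm
    have h2 : ((v⁻¹ : (𝓞 K)ˣ) : 𝓞 K) - (((v⁻¹ : (𝓞 K)ˣ) : 𝓞 K) * z ^ (p - 1)) ^ p =
        ((v⁻¹ : (𝓞 K)ˣ) : 𝓞 K) ^ p * c * ((v : 𝓞 K) - z ^ p) := by
      have h3 : ((v⁻¹ : (𝓞 K)ˣ) : 𝓞 K) = ((v⁻¹ : (𝓞 K)ˣ) : 𝓞 K) ^ p * (v : 𝓞 K) ^ (p - 1) := by
        conv_rhs => rw [show ((v⁻¹ : (𝓞 K)ˣ) : 𝓞 K) ^ p = ((v⁻¹ : (𝓞 K)ˣ) : 𝓞 K) ^ (p - 1) * ((v⁻¹ : (𝓞 K)ˣ) : 𝓞 K) by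
          rw [← pow_succ, Nat.sub_add_cancel hp.out.pos]]
        have h4 : ((v⁻¹ : (𝓞 K)ˣ) : 𝓞 K) ^ (p - 1) * (v : 𝓞 K) ^ (p - 1) = 1 := by
          rw [← mul_pow, hvv, one_pow]
        linear_combination (-((v⁻¹ : (𝓞 K)ˣ) : 𝓞 K)) * h4
      have h5 : (((v⁻¹ : (𝓞 K)ˣ) : 𝓞 K) * z ^ (p - 1)) ^ p = ((v⁻¹ : (𝓞 K)ˣ) : 𝓞 K) ^ p * (z ^ p) ^ (p - 1) := by
        rw [mul_pow, ← pow_mul, ← pow_mul, mul_comm (p - 1) p]
      rw [h5]
      calc ((v⁻¹ : (𝓞 K)ˣ) : 𝓞 K) - ((v⁻¹ : (𝓞 K)ˣ) : 𝓞 K) ^ p * (z ^ p) ^ (p - 1)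
          = ((v⁻¹ : (𝓞 K)ˣ) : 𝓞 K) ^ p * ((v : 𝓞 K) ^ (p - 1) - (z ^ p) ^ (p - 1)) := by
            rw [mul_sub, ← h3]
        _ = _ := by rw [hc]; ring
    rw [h2, map_mul]
    exact Q.mul_mem_left _ hz

omit hcard hcl hσ hR in
lemma mem_powU {Q : Ideal (𝓞 L)} {v : (𝓞 K)ˣ} :
    v ∈ powU (K := K) p Q ↔ ∃ z : 𝓞 K, algebraMap (𝓞 K) (𝓞 L) ((v : 𝓞 K) - z ^ p) ∈ Q := Iff.rfl

include hinf in
/-- If the primes `P i` are tame and there are units `u i` which are `p`-th powers modulo all of them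
with the exception of `P i`, then there is no such extension. -/
theorem no_many (hin : ∀ i, ∀ x : 𝓞 L, σ • x - x ∈ P i) (hpP : ∀ i, (p : 𝓞 L) ∉ P i)
    (u : ι → (𝓞 K)ˣ) (hu1 : ∀ i, u i ∉ powU p (P i)) (hu2 : ∀ i j, j ≠ i → u i ∈ powU p (P j)) : False := by
  classical
  obtain ⟨h1, h2⟩ := herbInf hinf hcard hσ
  have h3 := relIndex_le_many hcard hcl hσ hR
  -- many classes of units modulo norms
  let w : (ι → Fin p) → (𝓞 K)ˣ := fun a => ∏ i, u i ^ (a i : ℕ)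
  let e : (𝓞 K)ˣ →* (𝓞 L)ˣ := Units.map (algebraMap (𝓞 K) (𝓞 L) : 𝓞 K →* 𝓞 L)
  have he : ∀ v, e v ∈ (dU σ).ker := fun v => (mem_ker_dU hσ _).2 ⟨v, rfl⟩
  have hinj : Function.Injective (fun a : ι → Fin p =>
      (QuotientGroup.mk ⟨e (w a), he _⟩ : (dU σ).ker ⧸ ((nU p σ).range.subgroupOf (dU σ).ker))) := by
    intro a b hab
    have h4 : (⟨e (w a), he _⟩ : (dU σ).ker)⁻¹ * ⟨e (w b), he _⟩ ∈ (nU p σ).range.subgroupOf (dU σ).ker :=
      QuotientGroup.eq.1 hab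
    have h5 : (e (w a))⁻¹ * e (w b) ∈ (nU p σ).range := Subgroup.mem_subgroupOf.1 h4
    obtain ⟨y, hy⟩ := h5
    have h6 : nU p σ y = e ((w a)⁻¹ * w b) := by rw [hy, map_mul, map_inv]
    funext j
    have h7 : (w a)⁻¹ * w b ∈ powU (K := K) p (P j) :=
      mem_powU.2 (norm_pow (hR.max j) (hpP j) hcard hσ (hin j) y _ h6)
    have h8 : ∀ c : ι → Fin p, (QuotientGroup.mk (w c) : (𝓞 K)ˣ ⧸ powU (K := K) p (P j)) =
        (QuotientGroup.mk (u j)) ^ (c j : ℕ) := by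
      intro c
      have h9 : (QuotientGroup.mk' (powU (K := K) p (P j))) (w c) =
          ∏ i, ((QuotientGroup.mk' (powU (K := K) p (P j))) (u i)) ^ (c i : ℕ) := by
        rw [map_prod]
        exact Finset.prod_congr rfl fun i _ => map_pow _ _ _
      show (QuotientGroup.mk' (powU (K := K) p (P j))) (w c) = _
      rw [h9, Finset.prod_eq_single j]
      · rfl
      · intro i _ hij
        have h10 : (QuotientGroup.mk' (powU (K := K) p (P j))) (u i) = 1 :=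
          (QuotientGroup.eq_one_iff _).2 (hu2 i j (Ne.symm hij))
        rw [h10, one_pow]
      · intro h; exact absurd (Finset.mem_univ j) h
    have h11 : (QuotientGroup.mk (u j) : (𝓞 K)ˣ ⧸ powU (K := K) p (P j)) ^ (a j : ℕ) =
        (QuotientGroup.mk (u j)) ^ (b j : ℕ) := by
      rw [← h8, ← h8]
      exact QuotientGroup.eq.2 h7
    have hord : orderOf (QuotientGroup.mk (u j) : (𝓞 K)ˣ ⧸ powU (K := K) p (P j)) = p := by
      refine orderOf_eq_prime ?_ (fun h => hu1 j ((QuotientGroup.eq_one_iff _).1 h))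
      rw [← QuotientGroup.mk_pow]
      refine (QuotientGroup.eq_one_iff _).2 (mem_powU.2 ⟨(u j : 𝓞 K), ?_⟩)
      rw [Units.val_pow_eq_pow_val, sub_self, map_zero]
      exact (P j).zero_mem
    have h12 := pow_injOn_Iio_orderOf (x := (QuotientGroup.mk (u j) : (𝓞 K)ˣ ⧸ powU (K := K) p (P j)))
      (by rw [hord]; exact (a j).2) (by rw [hord]; exact (b j).2) h11
    exact Fin.ext h12
  have h13 : (nU p σ).range.relIndex (dU σ).ker ≠ 0 := h2
  have h14 : p ^ Fintype.card ι ≤ (nU p σ).range.relIndex (dU σ).ker := by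
    rw [Subgroup.relIndex, Subgroup.index_eq_card] at h13 ⊢
    haveI : Finite ((dU σ).ker ⧸ ((nU p σ).range.subgroupOf (dU σ).ker)) := Nat.finite_of_card_ne_zero h13
    have h15 := Nat.card_le_card_of_injective _ hinj
    simpa using h15
  have h16 : p * p ^ Fintype.card ι ≤ p ^ Fintype.card ι := (Nat.mul_le_mul_left p h14).trans (h1.trans h3)
  have h17 : 0 < p ^ Fintype.card ι := pow_pos hp.out.pos _
  have h18 := hp.out.two_le
  nlinarith

end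

section
variable {k : Type} [Field k] [NumberField k] {p : ℕ} [hp : Fact p.Prime]

/-- The primes in `T` are tame, and for each of them some unit is a `p`-th power modulo all the other
primes in `T`, but not modulo this prime. -/
def Indep (p : ℕ) (D : Type) [Field D] (T : Set (Ideal (𝓞 D))) : Prop :=
  ∀ 𝔭 ∈ T, 𝔭.IsMaximal ∧ (p : 𝓞 D) ∉ 𝔭 ∧ ∃ u : (𝓞 D)ˣ, (∀ z : 𝓞 D, (u : 𝓞 D) - z ^ p ∉ 𝔭) ∧
    ∀ 𝔭' ∈ T, 𝔭' ≠ 𝔭 → ∃ z : 𝓞 D, (u : 𝓞 D) - z ^ p ∈ 𝔭'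

/-- **Characters which are ramified at most at independent tame primes and at primes whose norm is
not congruent to `1` modulo `p` are trivial.** -/
theorem char_many (D : IntermediateField k (AlgebraicClosure k)) [FiniteDimensional k D] [NumberField D]
    (hinf : p ≠ 2 ∨ IsTotallyComplex D) (hcl : ¬ p ∣ classNumber D) {Ψ : GF k → ZMod p}
    (hΨ : IsCh D.fixingSubgroup Ψ) {T : Set (Ideal (𝓞 D))} (hTf : T.Finite) (hT : Indep p D T)
    (hI0 : ∀ Q : Ideal (OO k), Q.IsMaximal → Q.under (𝓞 D) ∉ T →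
      ((p : OO k) ∉ Q → p ∣ Ideal.absNorm (Q.under (𝓞 D)) - 1) → ∀ τ ∈ inertia Q,
      τ ∈ D.fixingSubgroup → Ψ τ = 0) :
    ∀ x ∈ D.fixingSubgroup, Ψ x = 0 := by
  classical
  have hI : ∀ Q : Ideal (OO k), Q.IsMaximal → Q.under (𝓞 D) ∉ T → ∀ τ ∈ inertia Q,
      τ ∈ D.fixingSubgroup → Ψ τ = 0 := by
    intro Q hQ hQT τ hτ hτD
    by_contra hne
    obtain ⟨M, hMn, hMg, hcard, ⟨σ, hσ⟩, hMx, hMr⟩ := exists_ext D hΨ hτD hne
    refine hne (hI0 Q hQ hQT (fun hpQ => ?_) τ hτ hτD)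
    haveI : Algebra.IsIntegral (𝓞 M) (𝓞 (AlgebraicClosure k)) := Algebra.IsIntegral.tower_top (R := ℤ)
    haveI := hQ
    have hQm : (Q.under (𝓞 M)).IsMaximal := Ideal.IsMaximal.under (𝓞 M) Q
    have h1 := tame_norm (K := D) (P := Q.under (𝓞 M)) hQm (by
      rw [Ideal.mem_comap, map_natCast]; exact hpQ) hcard hσ
      (((hMr Q hQ).2 ⟨τ, hτ, hτD, hne⟩).2 σ)
    exact h1
  intro x hx
  by_contra hne
  obtain ⟨M, hMn, hMg, hcard, ⟨σ, hσ⟩, hMx, hMr⟩ := exists_ext D hΨ hx hne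
  let W : Ideal (𝓞 D) → Prop := fun 𝔭 => ∃ Q : Ideal (OO k), Q.IsMaximal ∧ Q.under (𝓞 D) = 𝔭 ∧
    ∃ τ ∈ inertia Q, τ ∈ D.fixingSubgroup ∧ Ψ τ ≠ 0
  let ι : Type := {𝔭 : Ideal (𝓞 D) // 𝔭 ∈ T ∧ W 𝔭}
  haveI : Finite T := hTf
  haveI : Finite ι := Finite.of_injective (fun i : ι => (⟨i.1, i.2.1⟩ : T)) (fun i j h =>
    Subtype.ext (congrArg (fun y : T => (y : Ideal (𝓞 D))) h))
  haveI : Fintype ι := Fintype.ofFinite ι
  choose Q hQm hQu hQr using fun i : ι => i.2.2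
  have hin : ∀ i, ∀ (γ : Gal(M/D)) (x : 𝓞 M), γ • x - x ∈ (Q i).under (𝓞 M) := fun i => ((hMr (Q i) (hQm i)).2 (hQr i)).2
  have hR : ManyRam D M p (fun i : ι => (Q i).under (𝓞 M)) := by
    refine ⟨fun i => ?_, fun i => ((hMr (Q i) (hQm i)).2 (hQr i)).1, fun P' hP' hne' => ?_⟩
    · haveI : Algebra.IsIntegral (𝓞 M) (𝓞 (AlgebraicClosure k)) := Algebra.IsIntegral.tower_top (R := ℤ)
      haveI := hQm i
      exact Ideal.IsMaximal.under (𝓞 M) (Q i)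
    · haveI : Algebra.IsIntegral (𝓞 M) (𝓞 (AlgebraicClosure k)) := Algebra.IsIntegral.tower_top (R := ℤ)
      obtain ⟨Q', hQ'm, hQ'P⟩ := Ideal.exists_maximal_ideal_liesOver_of_isIntegral (S := 𝓞 (AlgebraicClosure k)) P'
      have hover : P' = Q'.under (𝓞 M) := hQ'P.over
      rw [hover]
      refine (hMr Q' hQ'm).1 fun τ hτ hτD => ?_
      by_contra hcon
      have hQ'T : Q'.under (𝓞 D) ∈ T := by
        by_contra h
        exact hcon (hI Q' hQ'm h τ hτ hτD)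
      let i : ι := ⟨Q'.under (𝓞 D), hQ'T, Q', hQ'm, rfl, τ, hτ, hτD, hcon⟩
      obtain ⟨g, hg, hgQ⟩ := trans_fix D (hQm i).isPrime hQ'm.isPrime (hQu i)
      apply hne' i
      rw [hover]
      set e := IntermediateField.fixingSubgroupEquiv D with he
      ext x
      show algebraMap (𝓞 M) (OO k) x ∈ Q' ↔ algebraMap (𝓞 M) (OO k) x ∈ Q i
      rw [hgQ]
      set γ : Gal(M/D) := AlgEquiv.restrictNormalHom M (e ⟨g⁻¹, D.fixingSubgroup.inv_mem hg⟩) with hγ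
      have h2 : algebraMap (𝓞 M) (OO k) (γ • x) = g⁻¹ • algebraMap (𝓞 M) (OO k) x := by
        apply RingOfIntegers.ext
        exact AlgEquiv.restrictNormal_commutes (e ⟨g⁻¹, D.fixingSubgroup.inv_mem hg⟩) M (x : M)
      have h3 : algebraMap (𝓞 M) (OO k) (γ • x) - algebraMap (𝓞 M) (OO k) x ∈ Q i := by
        rw [← map_sub]; exact hin i γ x
      rw [h2] at h3
      constructor
      · intro h
        have := (Q i).sub_mem h h3
        rwa [sub_sub_cancel] at this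
      · intro h
        have := (Q i).add_mem h3 h
        rwa [sub_add_cancel] at this
  have hpow : ∀ (i : ι) (v : (𝓞 D)ˣ), v ∈ powU (K := D) p ((Q i).under (𝓞 M)) ↔ ∃ z : 𝓞 D, (v : 𝓞 D) - z ^ p ∈ i.1 := by
    intro i v
    rw [mem_powU]
    constructor
    · rintro ⟨z, hz⟩
      refine ⟨z, ?_⟩
      rw [← hQu i]
      exact hz
    · rintro ⟨z, hz⟩
      rw [← hQu i] at hz
      exact ⟨z, hz⟩
  choose u hu1 hu2 using fun i : ι => (hT i.1 i.2.1).2.2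
  refine no_many hinf hcard hcl hσ hR (fun i => hin i σ) (fun i h => ?_) u (fun i h => ?_) (fun i j hij => ?_)
  · apply (hT i.1 i.2.1).2.1
    rw [← hQu i, Ideal.mem_comap, map_natCast]
    rw [Ideal.mem_comap, map_natCast] at h
    exact h
  · obtain ⟨z, hz⟩ := (hpow i _).1 h
    exact hu1 i z hz
  · exact (hpow j _).2 (hu2 i j.1 j.2.1 (fun h => hij (Subtype.ext h)))

end

end Pool.Agent.V5helper56.LI
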