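import Pool.Agent.V5helper56.LI.Grp

/-!
# Projective congruence subgroups
-/

set_option autoImplicit false
set_option linter.unusedSectionVars false

namespace Pool.Agent.V5helper56.LI

open IsLocalRing Matrix Pool.Agent.Z384

section
variable {A : Type*} [CommRing A] {n : ℕ}

lemma InI_mulR {I : Ideal A} {Z : Matrix (Fin n) (Fin n) A} (hZ : InI I Z)
    (W : Matrix (Fin n) (Fin n) A) : InI I (Z * W) := fun i j => by
  rw [Matrix.mul_apply]
  exact Ideal.sum_mem _ fun k _ => Ideal.mul_mem_right _ _ (hZ i k)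

lemma InI_sub {I : Ideal A} {Z W : Matrix (Fin n) (Fin n) A} (hZ : InI I Z) (hW : InI I W) :
    InI I (Z - W) := fun i j => sub_mem (hZ i j) (hW i j)

lemma InI_neg {I : Ideal A} {Z : Matrix (Fin n) (Fin n) A} (hZ : InI I Z) :
    InI I (-Z) := fun i j => neg_mem (hZ i j)

lemma InI_smul {I : Ideal A} (c : A) {Z : Matrix (Fin n) (Fin n) A} (hZ : InI I Z) :
    InI I (c • Z) := fun i j => Ideal.mul_mem_left _ _ (hZ i j)

lemma InI_zero {I : Ideal A} : InI I (0 : Matrix (Fin n) (Fin n) A) := fun _ _ => I.zero_mem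

variable [IsLocalRing A] {G : Type*} [Group G]

/-- The elements whose image is a scalar modulo `𝔪 ^ m`: it commutes with all matrices. -/
def pcong (ρ : G →* GL (Fin n) A) (m : ℕ) : Subgroup G where
  carrier := {σ | ∀ X : Matrix (Fin n) (Fin n) A,
    InI (maximalIdeal A ^ m) ((ρ σ : Matrix (Fin n) (Fin n) A) * X - X * (ρ σ : Matrix (Fin n) (Fin n) A))}
  mul_mem' := by
    intro a b ha hb X
    have e : (ρ (a * b) : Matrix (Fin n) (Fin n) A) * X - X * (ρ (a * b) : Matrix (Fin n) (Fin n) A) =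
        (ρ a : Matrix (Fin n) (Fin n) A) * ((ρ b : Matrix (Fin n) (Fin n) A) * X - X * (ρ b : Matrix (Fin n) (Fin n) A)) +
        ((ρ a : Matrix (Fin n) (Fin n) A) * X - X * (ρ a : Matrix (Fin n) (Fin n) A)) * (ρ b : Matrix (Fin n) (Fin n) A) := by
      rw [map_mul, Units.val_mul]
      noncomm_ring
    rw [e]
    exact ((hb X).mulL _).add (InI_mulR (ha X) _)
  one_mem' := by
    intro X
    rw [map_one, Units.val_one, one_mul, mul_one, sub_self]
    exact InI_zero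
  inv_mem' := by
    intro a ha X
    have h1 : (ρ a⁻¹ : Matrix (Fin n) (Fin n) A) * (ρ a : Matrix (Fin n) (Fin n) A) = 1 := by
      rw [← Units.val_mul, ← map_mul, inv_mul_cancel, map_one, Units.val_one]
    have h2 : (ρ a : Matrix (Fin n) (Fin n) A) * (ρ a⁻¹ : Matrix (Fin n) (Fin n) A) = 1 := by
      rw [← Units.val_mul, ← map_mul, mul_inv_cancel, map_one, Units.val_one]
    have e : (ρ a⁻¹ : Matrix (Fin n) (Fin n) A) * X - X * (ρ a⁻¹ : Matrix (Fin n) (Fin n) A) =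
        -((ρ a⁻¹ : Matrix (Fin n) (Fin n) A) * ((ρ a : Matrix (Fin n) (Fin n) A) * X - X * (ρ a : Matrix (Fin n) (Fin n) A)) *
          (ρ a⁻¹ : Matrix (Fin n) (Fin n) A)) := by
      rw [mul_sub, sub_mul, ← mul_assoc, h1, one_mul]
      have e2 : (ρ a⁻¹ : Matrix (Fin n) (Fin n) A) * (X * (ρ a : Matrix (Fin n) (Fin n) A)) * (ρ a⁻¹ : Matrix (Fin n) (Fin n) A) =
          (ρ a⁻¹ : Matrix (Fin n) (Fin n) A) * X := by
        rw [mul_assoc, mul_assoc, h2, mul_one]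
      rw [e2, neg_sub]
    rw [e]
    exact InI_neg (InI_mulR ((ha X).mulL _) _)

lemma mem_pcong {ρ : G →* GL (Fin n) A} {m : ℕ} {σ : G} : σ ∈ pcong ρ m ↔ ∀ X : Matrix (Fin n) (Fin n) A,
    InI (maximalIdeal A ^ m) ((ρ σ : Matrix (Fin n) (Fin n) A) * X - X * (ρ σ : Matrix (Fin n) (Fin n) A)) := Iff.rfl

lemma pcong_normal (ρ : G →* GL (Fin n) A) (m : ℕ) : (pcong ρ m).Normal := by
  refine ⟨fun a ha g X => ?_⟩
  have h1 : (ρ g⁻¹ : Matrix (Fin n) (Fin n) A) * (ρ g : Matrix (Fin n) (Fin n) A) = 1 := by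
    rw [← Units.val_mul, ← map_mul, inv_mul_cancel, map_one, Units.val_one]
  have h2 : (ρ g : Matrix (Fin n) (Fin n) A) * (ρ g⁻¹ : Matrix (Fin n) (Fin n) A) = 1 := by
    rw [← Units.val_mul, ← map_mul, mul_inv_cancel, map_one, Units.val_one]
  have h3 := ha ((ρ g⁻¹ : Matrix (Fin n) (Fin n) A) * X * (ρ g : Matrix (Fin n) (Fin n) A))
  have e : (ρ (g * a * g⁻¹) : Matrix (Fin n) (Fin n) A) * X - X * (ρ (g * a * g⁻¹) : Matrix (Fin n) (Fin n) A) =
      (ρ g : Matrix (Fin n) (Fin n) A) * ((ρ a : Matrix (Fin n) (Fin n) A) *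
        ((ρ g⁻¹ : Matrix (Fin n) (Fin n) A) * X * (ρ g : Matrix (Fin n) (Fin n) A)) -
        ((ρ g⁻¹ : Matrix (Fin n) (Fin n) A) * X * (ρ g : Matrix (Fin n) (Fin n) A)) * (ρ a : Matrix (Fin n) (Fin n) A)) *
        (ρ g⁻¹ : Matrix (Fin n) (Fin n) A) := by
    rw [map_mul, map_mul, Units.val_mul, Units.val_mul, mul_sub, sub_mul]
    congr 1
    · simp only [mul_assoc]
      rw [h2, mul_one]
    · simp only [← mul_assoc]
      rw [h2, one_mul]
  rw [e]
  exact InI_mulR (h3.mulL _) _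

lemma cong_le_pcong [IsNoetherianRing A] (ρ : G →* GL (Fin n) A) (m : ℕ) : cong ρ m ≤ pcong ρ m := by
  intro σ hσ X
  have h1 := mem_cong.1 hσ
  have e : (ρ σ : Matrix (Fin n) (Fin n) A) * X - X * (ρ σ : Matrix (Fin n) (Fin n) A) =
      ((ρ σ : Matrix (Fin n) (Fin n) A) - 1) * X - X * ((ρ σ : Matrix (Fin n) (Fin n) A) - 1) := by
    noncomm_ring
  rw [e]
  exact InI_sub (InI_mulR h1 _) (h1.mulL _)

lemma pcong_of_scalar {ρ : G →* GL (Fin n) A} {σ : G} {c : A}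
    (h : (ρ σ : Matrix (Fin n) (Fin n) A) = c • (1 : Matrix (Fin n) (Fin n) A)) (m : ℕ) : σ ∈ pcong ρ m := by
  intro X
  rw [h, smul_mul_assoc, mul_smul_comm, one_mul, mul_one, sub_self]
  exact InI_zero

lemma pcong_pgroup {p : ℕ} [hp : Fact p.Prime] (h2 : (p : A) ∈ maximalIdeal A) (ρ : G →* GL (Fin n) A)
    (hres : ∀ σ, ∃ (a : Aˣ) (N : ℕ), InI (maximalIdeal A)
      (((ρ σ : Matrix (Fin n) (Fin n) A) - (a : A) • (1 : Matrix (Fin n) (Fin n) A)) ^ N)) (m : ℕ)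
    (hn : (pcong ρ m).Normal) : IsPGroup p (G ⧸ pcong ρ m) := by
  intro x
  obtain ⟨g, rfl⟩ := QuotientGroup.mk_surjective x
  obtain ⟨a, N, hN⟩ := hres g
  refine ⟨N + m, ?_⟩
  rw [← QuotientGroup.mk_pow]
  refine (QuotientGroup.eq_one_iff _).2 ?_
  set X : Matrix (Fin n) (Fin n) A := ((a⁻¹ : Aˣ) : A) • (ρ g : Matrix (Fin n) (Fin n) A) with hX
  have haa : ((a⁻¹ : Aˣ) : A) * (a : A) = 1 := by rw [← Units.val_mul, inv_mul_cancel, Units.val_one]
  have haa' : (a : A) * ((a⁻¹ : Aˣ) : A) = 1 := by rw [← Units.val_mul, mul_inv_cancel, Units.val_one]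
  have h1 : InI (maximalIdeal A) ((X - 1) ^ N) := by
    have e : X - 1 = ((a⁻¹ : Aˣ) : A) • ((ρ g : Matrix (Fin n) (Fin n) A) - (a : A) • (1 : Matrix (Fin n) (Fin n) A)) := by
      rw [smul_sub, smul_smul, haa, one_smul]
    rw [e, smul_pow]
    exact InI_smul _ hN
  have h3 := (lift2 h2 (lift1 h2 h1) m).mono (Ideal.pow_le_pow_right (Nat.le_succ m))
  intro Y
  have e : (ρ (g ^ p ^ (N + m)) : Matrix (Fin n) (Fin n) A) =
      ((a : A) ^ p ^ (N + m)) • ((X ^ p ^ N) ^ p ^ m) := by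
    rw [map_pow, Units.val_pow_eq_pow_val, ← pow_mul, ← pow_add, hX, smul_pow, smul_smul, ← mul_pow, haa',
      one_pow, one_smul]
  have e2 : (ρ (g ^ p ^ (N + m)) : Matrix (Fin n) (Fin n) A) * Y - Y * (ρ (g ^ p ^ (N + m)) : Matrix (Fin n) (Fin n) A) =
      ((a : A) ^ p ^ (N + m)) • (((X ^ p ^ N) ^ p ^ m - 1) * Y - Y * ((X ^ p ^ N) ^ p ^ m - 1)) := by
    rw [e, smul_mul_assoc, mul_smul_comm, ← smul_sub]
    congr 1
    noncomm_ring
  rw [e2]
  exact InI_smul _ (InI_sub (InI_mulR h3 _) (h3.mulL _))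

/-- Elements which are scalar modulo all powers of the maximal ideal are scalar. -/
lemma scalar_of_pcong [IsNoetherianRing A] {ρ : G →* GL (Fin n) A} {σ : G} (h : ∀ m, σ ∈ pcong ρ m) :
    ∃ c : A, (ρ σ : Matrix (Fin n) (Fin n) A) = c • (1 : Matrix (Fin n) (Fin n) A) := by
  have h1 : ∀ X : Matrix (Fin n) (Fin n) A,
      (ρ σ : Matrix (Fin n) (Fin n) A) * X = X * (ρ σ : Matrix (Fin n) (Fin n) A) := by
    intro X
    ext i j
    have h2 : ((ρ σ : Matrix (Fin n) (Fin n) A) * X - X * (ρ σ : Matrix (Fin n) (Fin n) A)) i j ∈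
        (⨅ m : ℕ, maximalIdeal A ^ m : Ideal A) := by
      rw [Ideal.mem_iInf]
      intro m
      exact h m X i j
    rw [Ideal.iInf_pow_eq_bot_of_isLocalRing _ (Ideal.IsPrime.ne_top inferInstance), Ideal.mem_bot,
      Matrix.sub_apply, sub_eq_zero] at h2
    exact h2
  have h2 : (ρ σ : Matrix (Fin n) (Fin n) A) ∈ Set.range (Matrix.scalar (Fin n)) := by
    rw [Matrix.mem_range_scalar_iff_commute_single]
    intro i j _
    exact (h1 _).symm
  obtain ⟨c, hc⟩ := h2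
  refine ⟨c, ?_⟩
  rw [← hc, Matrix.scalar_apply, Matrix.smul_one_eq_diagonal]

end

end Pool.Agent.V5helper56.LI
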