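import Pool.Agent.V5helper56.LI.Grp
import Pool.Agent.V5helper56.LI.Many
import Pool.Agent.V5helper56.LI.Proj

/-!
# The image of the inertia group at the prime above `p`
-/

set_option autoImplicit false
set_option linter.style.haveILetI false
set_option linter.unusedSectionVars false
set_option linter.unusedVariables false

namespace Pool.Agent.V5helper56.LI

open NumberField IsLocalRing Matrix Pool.Agent.Z384 Pool.Agent.W569.FM Pool.Agent.W571.FM
open Pool.Agent.R417.FK Pool.Agent.Helper832_EG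

/-- The decomposition group. -/
def dec {k : Type} [Field k] (P : Ideal (OO k)) : Subgroup (GF k) where
  carrier := {σ | ∀ x : OO k, x ∈ P ↔ σ • x ∈ P}
  mul_mem' := fun {a b} ha hb x => by rw [mul_smul, ← ha, ← hb]
  one_mem' := fun x => by rw [one_smul]
  inv_mem' := fun {a} ha x => by rw [ha (a⁻¹ • x), smul_inv_smul]

section
variable {k : Type} [Field k] [NumberField k] {p : ℕ} [hp : Fact p.Prime]
variable {A : Type*} [CommRing A] [IsLocalRing A] [IsNoetherianRing A] [TopologicalSpace A] {n : ℕ}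

lemma under_eq (K : IntermediateField k (AlgebraicClosure k)) [NumberField K] (h1 : OnePrime K p)
    {P Q : Ideal (OO k)} (hP : P.IsMaximal) (hQ : Q.IsMaximal) (hpP : (p : OO k) ∈ P) (hpQ : (p : OO k) ∈ Q) :
    P.under (𝓞 K) = Q.under (𝓞 K) := by
  haveI := hP.isPrime
  haveI := hQ.isPrime
  refine h1 _ _ inferInstance inferInstance ?_ ?_
  · rw [Ideal.mem_comap, map_natCast]; exact hpP
  · rw [Ideal.mem_comap, map_natCast]; exact hpQ

/-- **The inertia group at `p` is dense.** -/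
theorem dense_abs (K : IntermediateField k (AlgebraicClosure k)) [FiniteDimensional k K] [NumberField K]
    (hinf : p ≠ 2 ∨ IsTotallyComplex K) (h1 : OnePrime K p) (hcl : ¬ p ∣ classNumber K)
    {T : Set (Ideal (𝓞 K))} (hTf : T.Finite) (hT : Indep p K T)
    (U : Subgroup (GF k)) (hUo : IsOpen (U : Set (GF k))) (U' : Subgroup K.fixingSubgroup)
    (hUU : ∀ σ : K.fixingSubgroup, σ ∈ U' ↔ (σ : GF k) ∈ U) (hUn : U'.Normal)
    (hpg : IsPGroup p (K.fixingSubgroup ⧸ U'))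
    (hram : ∀ Q : Ideal (OO k), Q.IsMaximal → (p : OO k) ∉ Q → Q.under (𝓞 K) ∉ T →
      p ∣ Ideal.absNorm (Q.under (𝓞 K)) - 1 → ∀ σ ∈ inertia Q, σ ∈ K.fixingSubgroup → σ ∈ U)
    {P : Ideal (OO k)} (hP : P.IsMaximal) (hpP : (p : OO k) ∈ P) {g : GF k}
    (hg : g ∈ K.fixingSubgroup) : ∃ δ ∈ inertia P ⊓ K.fixingSubgroup, δ⁻¹ * g ∈ U := by
  classical
  have hNc : IsClosed (K.fixingSubgroup : Set (GF k)) := InfiniteGalois.fixingSubgroup_isClosed K
  haveI : CompactSpace K.fixingSubgroup := isCompact_iff_compactSpace.1 hNc.isCompact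
  have hU'o : IsOpen (U' : Set K.fixingSubgroup) := by
    have e : (U' : Set K.fixingSubgroup) = (Subtype.val : K.fixingSubgroup → GF k) ⁻¹' (U : Set (GF k)) := by
      ext σ
      exact hUU σ
    rw [e]
    exact hUo.preimage continuous_subtype_val
  haveI hfin : Finite (K.fixingSubgroup ⧸ U') := Subgroup.quotient_finite_of_isOpen U' hU'o
  suffices hkey : ∀ F : K.fixingSubgroup →* Multiplicative (ZMod p), (∀ σ ∈ U', F σ = 1) →
      (∀ σ ∈ (inertia P).subgroupOf K.fixingSubgroup, F σ = 1) → ∀ σ, F σ = 1 by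
    obtain ⟨δ, hδ, hδg⟩ := burn (p := p) hUn hfin hpg ((inertia P).subgroupOf K.fixingSubgroup) hkey
      (⟨g, hg⟩ : K.fixingSubgroup)
    exact ⟨δ, ⟨hδ, δ.2⟩, (hUU _).1 hδg⟩
  intro F hFU hFD
  -- the character
  let Ψ : GF k → ZMod p := fun x => if h : x ∈ K.fixingSubgroup then Multiplicative.toAdd (F ⟨x, h⟩) else 0
  have hΨv : ∀ x (h : x ∈ K.fixingSubgroup), Ψ x = Multiplicative.toAdd (F ⟨x, h⟩) := fun x h => dif_pos h
  have hΨ0 : ∀ x (h : x ∈ K.fixingSubgroup), F ⟨x, h⟩ = 1 → Ψ x = 0 := fun x h h' => by rw [hΨv x h, h']; rfl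
  have hΨ : IsCh K.fixingSubgroup Ψ := by
    refine ⟨fun x hx y hy => ?_, U, hUo, fun x hx hxU => ?_⟩
    · rw [hΨv x hx, hΨv y hy, hΨv _ (K.fixingSubgroup.mul_mem hx hy), ← toAdd_mul, ← map_mul]
      rfl
    · exact hΨ0 x hx (hFU _ ((hUU ⟨x, hx⟩).2 hxU))
  have hp1 : ∀ Q : Ideal (OO k), Q.IsMaximal → Q.under (𝓞 K) ∉ T →
      ((p : OO k) ∉ Q → p ∣ Ideal.absNorm (Q.under (𝓞 K)) - 1) → ∀ τ ∈ inertia Q, τ ∈ K.fixingSubgroup → Ψ τ = 0 := by
    intro Q hQ hQq hQn τ hτ hτN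
    by_cases hpQ : (p : OO k) ∈ Q
    · obtain ⟨h, hh, hhQ⟩ := trans_fix K hP.isPrime hQ.isPrime (under_eq K h1 hP hQ hpP hpQ)
      have h3 : h⁻¹ * τ * h ∈ inertia P := inertia_conj hhQ hτ
      have h4 : h⁻¹ * τ * h ∈ K.fixingSubgroup := K.fixingSubgroup.mul_mem (K.fixingSubgroup.mul_mem (K.fixingSubgroup.inv_mem hh) hτN) hh
      rw [← ch_conj hΨ hh hτN]
      exact hΨ0 _ h4 (hFD _ h3)
    · exact hΨ0 _ hτN (hFU _ ((hUU ⟨τ, hτN⟩).2 (hram Q hQ hpQ hQq (hQn hpQ) τ hτ hτN)))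
  have hall : ∀ x ∈ K.fixingSubgroup, Ψ x = 0 := char_many K hinf hcl hΨ hTf hT hp1
  intro σ
  have h5 := hall σ σ.2
  rw [hΨv σ σ.2] at h5
  exact Multiplicative.toAdd.injective h5

/-- Passage to the limit. -/
theorem lim_abs (K : IntermediateField k (AlgebraicClosure k)) (U : ℕ → Subgroup (GF k))
    (hUo : ∀ m, IsOpen (U m : Set (GF k))) (hU : ∀ m, U (m + 1) ≤ U m) {P : Ideal (OO k)} {g : GF k}
    (h : ∀ m, ∃ δ ∈ inertia P ⊓ K.fixingSubgroup, δ⁻¹ * g ∈ U m) :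
    ∃ δ ∈ inertia P ⊓ K.fixingSubgroup, ∀ m, δ⁻¹ * g ∈ U m := by
  have hcl1 : ∀ m, IsClosed (U m : Set (GF k)) := fun m => Subgroup.isClosed_of_isOpen _ (hUo m)
  have hIc : IsClosed ((inertia P ⊓ K.fixingSubgroup : Subgroup (GF k)) : Set (GF k)) := by
    rw [Subgroup.coe_inf]
    exact (inertia_isClosed P).inter (InfiniteGalois.fixingSubgroup_isClosed K)
  have hcont : Continuous fun δ : GF k => δ⁻¹ * g := continuous_inv.mul continuous_const
  let t : ℕ → Set (GF k) := fun m =>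
    ((inertia P ⊓ K.fixingSubgroup : Subgroup (GF k)) : Set (GF k)) ∩ (fun δ => δ⁻¹ * g) ⁻¹' (U m : Set (GF k))
  have htc : ∀ m, IsClosed (t m) := fun m => hIc.inter ((hcl1 m).preimage hcont)
  obtain ⟨δ, hδ⟩ := IsCompact.nonempty_iInter_of_sequence_nonempty_isCompact_isClosed t
    (fun m => Set.inter_subset_inter_right _ (Set.preimage_mono fun x hx => hU m hx))
    (fun m => by
      obtain ⟨δ, hδ, hδg⟩ := h m
      exact ⟨δ, hδ, hδg⟩) (htc 0).isCompact htc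
  rw [Set.mem_iInter] at hδ
  exact ⟨δ, (hδ 0).1, fun m => (hδ m).2⟩

lemma eq_one_of_cong {ρ : GF k →* GL (Fin n) A} {x : GF k} (h : ∀ m, x ∈ cong ρ m) : ρ x = 1 := by
  apply Units.ext
  ext i j
  have h1 : (ρ x : Matrix (Fin n) (Fin n) A) i j - (1 : Matrix (Fin n) (Fin n) A) i j ∈
      (⨅ m : ℕ, maximalIdeal A ^ m : Ideal A) := by
    rw [Ideal.mem_iInf]
    intro m
    exact mem_cong.1 (h m) i j
  rw [Ideal.iInf_pow_eq_bot_of_isLocalRing _ (Ideal.IsPrime.ne_top inferInstance), Ideal.mem_bot,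
    sub_eq_zero] at h1
  rw [h1]; rfl

/-- **The images of the inertia group at `p` and of the whole group coincide over `K`.** -/
theorem image_inertia (K : IntermediateField k (AlgebraicClosure k)) [FiniteDimensional k K] [NumberField K]
    (hinf : p ≠ 2 ∨ IsTotallyComplex K) (h1 : OnePrime K p) (hcl : ¬ p ∣ classNumber K)
    {T : Set (Ideal (𝓞 K))} (hTf : T.Finite) (hT : Indep p K T)
    (hA : IsAdic (maximalIdeal A)) (h2 : (p : A) ∈ maximalIdeal A)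
    {ρ : GF k →* GL (Fin n) A} (hρ : ∀ i j, Continuous fun σ => (ρ σ : Matrix (Fin n) (Fin n) A) i j)
    (hres : ∀ σ ∈ K.fixingSubgroup, ∃ M : ℕ, InI (maximalIdeal A) (((ρ σ : Matrix (Fin n) (Fin n) A) - 1) ^ M))
    (hram : ∀ Q : Ideal (OO k), Q.IsMaximal → (p : OO k) ∉ Q → Q.under (𝓞 K) ∉ T →
      p ∣ Ideal.absNorm (Q.under (𝓞 K)) - 1 → ∀ σ ∈ inertia Q, σ ∈ K.fixingSubgroup → ρ σ = 1)
    {P : Ideal (OO k)} (hP : P.IsMaximal) (hpP : (p : OO k) ∈ P) {g : GF k}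
    (hg : g ∈ K.fixingSubgroup) : ∃ δ ∈ inertia P ⊓ K.fixingSubgroup, ρ δ = ρ g := by
  let ρN : K.fixingSubgroup →* GL (Fin n) A := ρ.comp K.fixingSubgroup.subtype
  have hcg : ∀ m, ∀ σ : K.fixingSubgroup, σ ∈ cong ρN m ↔ (σ : GF k) ∈ cong ρ m := fun m σ => by
    rw [mem_cong, mem_cong]; rfl
  obtain ⟨δ, hδ, hδg⟩ := lim_abs K (fun m => cong ρ m) (fun m => cong_open hA hρ m)
    (fun m x hx => mem_cong.2 ((mem_cong.1 hx).mono (Ideal.pow_le_pow_right (Nat.le_succ m))))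
    (P := P) (g := g) (fun m => dense_abs K hinf h1 hcl hTf hT (cong ρ m) (cong_open hA hρ m) (cong ρN m)
      (hcg m) (cong_normal ρN m) (cong_pgroup h2 ρN (fun σ => hres σ σ.2) m (cong_normal ρN m))
      (fun Q hQ hpQ hQT hQn σ hσ hσK => by
        rw [mem_cong, hram Q hQ hpQ hQT hQn σ hσ hσK, Units.val_one, sub_self]
        exact fun i j => Ideal.zero_mem _) hP hpP hg)
  refine ⟨δ, hδ, ?_⟩
  have h3 := eq_one_of_cong (ρ := ρ) hδg
  rw [map_mul, map_inv, inv_mul_eq_one] at h3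
  exact h3

/-- **The projective images of the inertia group at `p` and of the whole group coincide over `K`.** -/
theorem image_inertia_proj (K : IntermediateField k (AlgebraicClosure k)) [FiniteDimensional k K] [NumberField K]
    (hinf : p ≠ 2 ∨ IsTotallyComplex K) (h1 : OnePrime K p) (hcl : ¬ p ∣ classNumber K)
    {T : Set (Ideal (𝓞 K))} (hTf : T.Finite) (hT : Indep p K T)
    (hA : IsAdic (maximalIdeal A)) (h2 : (p : A) ∈ maximalIdeal A)
    {ρ : GF k →* GL (Fin n) A} (hρ : ∀ i j, Continuous fun σ => (ρ σ : Matrix (Fin n) (Fin n) A) i j)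
    (hres : ∀ σ ∈ K.fixingSubgroup, ∃ (a : Aˣ) (M : ℕ), InI (maximalIdeal A)
      (((ρ σ : Matrix (Fin n) (Fin n) A) - (a : A) • (1 : Matrix (Fin n) (Fin n) A)) ^ M))
    (hram : ∀ Q : Ideal (OO k), Q.IsMaximal → (p : OO k) ∉ Q → Q.under (𝓞 K) ∉ T →
      p ∣ Ideal.absNorm (Q.under (𝓞 K)) - 1 → ∀ σ ∈ inertia Q, σ ∈ K.fixingSubgroup →
      ∃ c : A, (ρ σ : Matrix (Fin n) (Fin n) A) = c • (1 : Matrix (Fin n) (Fin n) A))
    {P : Ideal (OO k)} (hP : P.IsMaximal) (hpP : (p : OO k) ∈ P) {g : GF k}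
    (hg : g ∈ K.fixingSubgroup) : ∃ δ ∈ inertia P ⊓ K.fixingSubgroup, ∃ c : A,
      (ρ g : Matrix (Fin n) (Fin n) A) = c • (ρ δ : Matrix (Fin n) (Fin n) A) := by
  let ρN : K.fixingSubgroup →* GL (Fin n) A := ρ.comp K.fixingSubgroup.subtype
  have hcg : ∀ m, ∀ σ : K.fixingSubgroup, σ ∈ pcong ρN m ↔ (σ : GF k) ∈ pcong ρ m := fun m σ => by
    rw [mem_pcong, mem_pcong]; rfl
  have hop : ∀ m, IsOpen (pcong ρ m : Set (GF k)) := fun m =>
    Subgroup.isOpen_mono (cong_le_pcong ρ m) (cong_open hA hρ m)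
  obtain ⟨δ, hδ, hδg⟩ := lim_abs K (fun m => pcong ρ m) hop
    (fun m x hx X => (hx X).mono (Ideal.pow_le_pow_right (Nat.le_succ m)))
    (P := P) (g := g) (fun m => dense_abs K hinf h1 hcl hTf hT (pcong ρ m) (hop m) (pcong ρN m)
      (hcg m) (pcong_normal ρN m) (pcong_pgroup h2 ρN (fun σ => hres σ σ.2) m (pcong_normal ρN m))
      (fun Q hQ hpQ hQT hQn σ hσ hσK => by
        obtain ⟨c, hc⟩ := hram Q hQ hpQ hQT hQn σ hσ hσK
        exact pcong_of_scalar hc m) hP hpP hg)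
  refine ⟨δ, hδ, ?_⟩
  obtain ⟨c, hc⟩ := scalar_of_pcong (ρ := ρ) hδg
  refine ⟨c, ?_⟩
  have h3 : g = δ * (δ⁻¹ * g) := by group
  conv_lhs => rw [h3]
  rw [map_mul, Units.val_mul, hc, mul_smul_comm, mul_one]

/-- Every element is the product of an element of `G_K` and an element of the decomposition group. -/
theorem split_dec (K : IntermediateField k (AlgebraicClosure k)) [NumberField K] (h1 : OnePrime K p)
    {P : Ideal (OO k)} (hP : P.IsMaximal) (hpP : (p : OO k) ∈ P) (σ : GF k) :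
    ∃ g ∈ K.fixingSubgroup, g⁻¹ * σ ∈ dec P := by
  obtain ⟨Q, hQ, hQm, hQn, _⟩ := exists_conj_ideal P σ
  obtain ⟨g, hg, hgQ⟩ := trans_fix K hP.isPrime (hQm hP).isPrime
    (under_eq K h1 hP (hQm hP) hpP ((hQn p).2 hpP))
  refine ⟨g, hg, fun x => ?_⟩
  rw [mul_smul, ← hgQ, hQ, inv_smul_smul]

lemma inertia_le_dec {P : Ideal (OO k)} {δ : GF k} (hδ : δ ∈ inertia P) : δ ∈ dec P :=
  fun x => (inertia_mem hδ x).symm

/-- **The image of the decomposition group at `p` is everything.** -/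
theorem image_dec (K : IntermediateField k (AlgebraicClosure k)) [NumberField K] (h1 : OnePrime K p)
    {ρ : GF k →* GL (Fin n) A} {P : Ideal (OO k)} (hP : P.IsMaximal) (hpP : (p : OO k) ∈ P)
    (hI : ∀ g ∈ K.fixingSubgroup, ∃ δ ∈ inertia P ⊓ K.fixingSubgroup, ρ δ = ρ g) (σ : GF k) :
    ∃ δ ∈ dec P, ρ δ = ρ σ := by
  obtain ⟨g, hg, h3⟩ := split_dec K h1 hP hpP σ
  obtain ⟨δ, hδ, hδg⟩ := hI g hg
  refine ⟨δ * (g⁻¹ * σ), (dec P).mul_mem (inertia_le_dec hδ.1) h3, ?_⟩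
  rw [map_mul, hδg, ← map_mul, mul_inv_cancel_left]

/-- **The projective image of the decomposition group at `p` is everything.** -/
theorem image_dec_proj (K : IntermediateField k (AlgebraicClosure k)) [NumberField K] (h1 : OnePrime K p)
    {ρ : GF k →* GL (Fin n) A} {P : Ideal (OO k)} (hP : P.IsMaximal) (hpP : (p : OO k) ∈ P)
    (hI : ∀ g ∈ K.fixingSubgroup, ∃ δ ∈ inertia P ⊓ K.fixingSubgroup, ∃ c : A,
      (ρ g : Matrix (Fin n) (Fin n) A) = c • (ρ δ : Matrix (Fin n) (Fin n) A)) (σ : GF k) :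
    ∃ δ ∈ dec P, ∃ c : A, (ρ σ : Matrix (Fin n) (Fin n) A) = c • (ρ δ : Matrix (Fin n) (Fin n) A) := by
  obtain ⟨g, hg, h3⟩ := split_dec K h1 hP hpP σ
  obtain ⟨δ, hδ, c, hδg⟩ := hI g hg
  refine ⟨δ * (g⁻¹ * σ), (dec P).mul_mem (inertia_le_dec hδ.1) h3, c, ?_⟩
  have h4 : σ = g * (g⁻¹ * σ) := by group
  conv_lhs => rw [h4]
  rw [map_mul, Units.val_mul, hδg, smul_mul_assoc, ← Units.val_mul, ← map_mul]

end

section two
variable {k : Type} [Field k] [NumberField k] {n : ℕ}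
variable {A : Type*} [CommRing A] [IsLocalRing A] [IsNoetherianRing A] [TopologicalSpace A]
variable {F : Type*} [Field F] [Algebra A F] [IsFractionRing A F]

/-- A line which is preserved by a subgroup of finite index of the inertia group is preserved by a
subgroup of finite index. -/
theorem cover (N I D' : Subgroup (GF k)) (hNf : Finite (GF k ⧸ N)) {ρ : GF k →* GL (Fin n) A}
    (hI : ∀ g ∈ N, ∃ δ ∈ I ⊓ N, ∃ c : A,
      (ρ g : Matrix (Fin n) (Fin n) A) = c • (ρ δ : Matrix (Fin n) (Fin n) A)) (hD : D'.relIndex I ≠ 0)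
    {v : Fin n → F} (hv : v ≠ 0) (hD' : ∀ δ ∈ D', δ ∈ I → ∃ c : F, act F ρ δ v = c • v) :
    ∃ R : Set (GF k), R.Finite ∧ ∀ g : GF k, ∃ r ∈ R, r⁻¹ * g ∈ stb ρ (Submodule.span F {v}) := by
  classical
  set S : Subgroup (GF k) := stb ρ (Submodule.span F {v}) with hS
  have hDS : D' ⊓ I ≤ S := by
    intro δ hδ
    obtain ⟨c, hc⟩ := hD' δ hδ.1 hδ.2
    refine mem_stb_line ρ hv ?_
    rw [hc]
    exact Submodule.smul_mem _ _ (Submodule.mem_span_singleton_self v)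
  have hSI : S.relIndex I ≠ 0 := by
    have h1 := Subgroup.relIndex_dvd_of_le_left (L := I) hDS
    rw [Subgroup.inf_relIndex_right] at h1
    exact fun h => hD (by rw [h] at h1; exact Nat.eq_zero_of_zero_dvd h1)
  have hSIN : S.relIndex (I ⊓ N) ≠ 0 := fun h => hSI (Subgroup.relIndex_eq_zero_of_le_right inf_le_left h)
  have hker : ∀ (x : GF k) (c : A), (ρ x : Matrix (Fin n) (Fin n) A) = c • (1 : Matrix (Fin n) (Fin n) A) → x ∈ S := by
    intro x c hx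
    refine mem_stb_line ρ hv ?_
    rw [act_apply, hx]
    have h1 : (c • (1 : Matrix (Fin n) (Fin n) A)).map (algebraMap A F) =
        (algebraMap A F c) • (1 : Matrix (Fin n) (Fin n) F) := by
      ext i j
      rw [Matrix.map_apply, Matrix.smul_apply, Matrix.smul_apply, smul_eq_mul, smul_eq_mul, map_mul]
      congr 1
      rw [Matrix.one_apply, Matrix.one_apply]
      split_ifs
      · exact map_one _
      · exact map_zero _
    rw [h1, smul_mulVec, one_mulVec]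
    exact Submodule.smul_mem _ _ (Submodule.mem_span_singleton_self v)
  have hfin1 : Finite ((I ⊓ N : Subgroup (GF k)) ⧸ S.subgroupOf (I ⊓ N)) := by
    have h2 : (S.subgroupOf (I ⊓ N)).index ≠ 0 := hSIN
    haveI : (S.subgroupOf (I ⊓ N)).FiniteIndex := ⟨h2⟩
    infer_instance
  let R : Set (GF k) := Set.range fun x : (GF k ⧸ N) × ((I ⊓ N : Subgroup (GF k)) ⧸ S.subgroupOf (I ⊓ N)) =>
    (Quotient.out x.1 : GF k) * ((Quotient.out x.2 : (I ⊓ N : Subgroup (GF k))) : GF k)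
  refine ⟨R, Set.finite_range _, fun g => ?_⟩
  set c : GF k := Quotient.out (QuotientGroup.mk g : GF k ⧸ N) with hc
  have h1 : c⁻¹ * g ∈ N := by
    rw [← QuotientGroup.eq, hc]
    exact Quotient.out_eq' _
  obtain ⟨δ, hδ, c', hδg⟩ := hI _ h1
  set r : (I ⊓ N : Subgroup (GF k)) := Quotient.out (QuotientGroup.mk (⟨δ, hδ⟩ : (I ⊓ N : Subgroup (GF k))) :
    (I ⊓ N : Subgroup (GF k)) ⧸ S.subgroupOf (I ⊓ N)) with hr
  have h2 : (r : GF k)⁻¹ * δ ∈ S := by
    have h3 : r⁻¹ * ⟨δ, hδ⟩ ∈ S.subgroupOf (I ⊓ N) := by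
      rw [← QuotientGroup.eq, hr]
      exact Quotient.out_eq' _
    exact Subgroup.mem_subgroupOf.1 h3
  refine ⟨c * r, ⟨(QuotientGroup.mk g, QuotientGroup.mk ⟨δ, hδ⟩), rfl⟩, ?_⟩
  have h4 : (c * (r : GF k))⁻¹ * g = ((r : GF k)⁻¹ * δ) * (δ⁻¹ * (c⁻¹ * g)) := by group
  rw [h4]
  refine S.mul_mem h2 (hker _ c' ?_)
  rw [map_mul, Units.val_mul, hδg, mul_smul_comm, ← Units.val_mul, ← map_mul, inv_mul_cancel, map_one,
    Units.val_one]

/-- **Representations which preserve potentially a line on the inertia group.** -/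
theorem pot_line (N I D' : Subgroup (GF k)) (hNf : Finite (GF k ⧸ N)) (hA : IsAdic (maximalIdeal A))
    {ρ : GF k →* GL (Fin n) A} (hρ : ∀ i j, Continuous fun σ => (ρ σ : Matrix (Fin n) (Fin n) A) i j)
    (hI : ∀ g ∈ N, ∃ δ ∈ I ⊓ N, ∃ c : A,
      (ρ g : Matrix (Fin n) (Fin n) A) = c • (ρ δ : Matrix (Fin n) (Fin n) A)) (hD : D'.relIndex I ≠ 0)
    (hirr : Irr F ρ) {v : Fin n → F} (hv : v ≠ 0) (hD' : ∀ δ ∈ D', δ ∈ I → ∃ c : F, act F ρ δ v = c • v) :
    ∃ S : Subgroup (GF k), S.Normal ∧ S.FiniteIndex ∧ IsOpen (S : Set (GF k)) ∧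
      (∀ σ ∈ S, ∀ τ ∈ S, ρ σ * ρ τ = ρ τ * ρ σ) := by
  obtain ⟨R, hRf, hR⟩ := cover N I D' hNf hI hD hv hD'
  have hSe : ∀ σ ∈ stb ρ (Submodule.span F {v}), ∃ c : F, act F ρ σ v = c • v := by
    intro σ hσ
    obtain ⟨c, hc⟩ := Submodule.mem_span_singleton.1
      ((hσ v).1 (Submodule.mem_span_singleton_self v))
    exact ⟨c, hc.symm⟩
  exact pot_ab hA hρ (D := ⊤) (D' := stb ρ (Submodule.span F {v})) (fun m g => ⟨g, Subgroup.mem_top g, by
    rw [inv_mul_cancel]; exact one_mem _⟩) hRf (fun δ _ => hR δ) hirr hv hSe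

/-- **Two-dimensional representations whose restriction to the inertia group is potentially
reducible.** -/
theorem pot_red (N I D' : Subgroup (GF k)) (hNf : Finite (GF k ⧸ N)) (hA : IsAdic (maximalIdeal A))
    {ρ : GF k →* GL (Fin 2) A} (hρ : ∀ i j, Continuous fun σ => (ρ σ : Matrix (Fin 2) (Fin 2) A) i j)
    (hI : ∀ g ∈ N, ∃ δ ∈ I ⊓ N, ∃ c : A,
      (ρ g : Matrix (Fin 2) (Fin 2) A) = c • (ρ δ : Matrix (Fin 2) (Fin 2) A)) (hD : D'.relIndex I ≠ 0)
    (hirr : Irr F ρ) {v : Fin 2 → F} (hv : v ≠ 0) (hD' : ∀ δ ∈ D', δ ∈ I → ∃ c : F, act F ρ δ v = c • v) :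
    (∃ S : Subgroup (GF k), S.Normal ∧ S.FiniteIndex ∧ IsOpen (S : Set (GF k)) ∧
      (∀ σ ∈ S, ∃ c : F, ∀ w, act F ρ σ w = c • w)) ∨
    ∃ T : Subgroup (GF k), T.index = 2 ∧ IsOpen (T : Set (GF k)) ∧
      ∀ σ ∈ T, ∃ c : F, act F ρ σ v = c • v := by
  obtain ⟨R, hRf, hR⟩ := cover N I D' hNf hI hD hv hD'
  have hSe : ∀ σ ∈ stb ρ (Submodule.span F {v}), ∃ c : F, act F ρ σ v = c • v := by
    intro σ hσ
    obtain ⟨c, hc⟩ := Submodule.mem_span_singleton.1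
      ((hσ v).1 (Submodule.mem_span_singleton_self v))
    exact ⟨c, hc.symm⟩
  exact dih hA hρ (D := ⊤) (D' := stb ρ (Submodule.span F {v})) (fun m g => ⟨g, Subgroup.mem_top g, by
    rw [inv_mul_cancel]; exact one_mem _⟩) hRf (fun δ _ => hR δ) hirr hv hSe

end two

end Pool.Agent.V5helper56.LI
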