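import Pool.Agent.Helper832_EG.PD13

/-!
# Characters of the absolute Galois group of a totally complex field whose class number is prime to `p`
-/

set_option linter.style.haveILetI false
set_option linter.unusedSectionVars false
set_option linter.unusedVariables false

open NumberField Ideal Module IntermediateField Pool.Agent.W569.FM Pool.Agent.W571.FM Pool.Agent.R417.FK
open Pool.Agent.Helper832_EG
open scoped Pointwise nonZeroDivisors

namespace Pool.Agent.V5helper56.LI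

section
variable {k : Type} [Field k] [NumberField k] {p : ℕ} [hp : Fact p.Prime]

/-- The Galois group of `D` acts transitively on the primes above a prime of `D`. -/
theorem trans_fix (D : IntermediateField k (AlgebraicClosure k)) {P Q : Ideal (OO k)} (hP : P.IsPrime)
    (hQ : Q.IsPrime) (h : P.under (𝓞 D) = Q.under (𝓞 D)) :
    ∃ g ∈ D.fixingSubgroup, ∀ x : OO k, x ∈ Q ↔ g⁻¹ • x ∈ P := by
  classical
  have hclosed : IsClosed (D.fixingSubgroup : Set (GF k)) :=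
    InfiniteGalois.fixingSubgroup_isClosed D
  have hcomm : SMulCommClass D.fixingSubgroup (𝓞 D) (𝓞 (AlgebraicClosure k)) :=
    Pool.Agent.W569.UF.Disc.smulComm D
  have hinv : Algebra.IsInvariant (𝓞 D) (𝓞 (AlgebraicClosure k)) D.fixingSubgroup :=
    Pool.Agent.W569.UF.Disc.isInv D
  have hcpt : CompactSpace D.fixingSubgroup := isCompact_iff_compactSpace.1 hclosed.isCompact
  let _ : TopologicalSpace (𝓞 (AlgebraicClosure k)) := ⊥
  have : DiscreteTopology (𝓞 (AlgebraicClosure k)) := ⟨rfl⟩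
  have hcont : ContinuousSMul (GF k) (𝓞 (AlgebraicClosure k)) := by
    rw [continuousSMul_iff_stabilizer_isOpen]
    intro x
    exact isOpen_fix_integer x
  have hcontU : ContinuousSMul D.fixingSubgroup (𝓞 (AlgebraicClosure k)) := inferInstance
  obtain ⟨h, hh⟩ := Algebra.IsInvariant.exists_smul_of_under_eq_of_profinite
    (A := 𝓞 D) (G := D.fixingSubgroup) P Q h
  refine ⟨h.1, h.2, fun x => ?_⟩
  rw [hh]
  exact Ideal.mem_pointwise_smul_iff_inv_smul_mem

lemma ch_conj {L : Subgroup (GF k)} {Ψ : GF k → ZMod p} (hΨ : IsCh L Ψ) {g τ : GF k} (hg : g ∈ L)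
    (hτ : τ ∈ L) : Ψ (g⁻¹ * τ * g) = Ψ τ := by
  have h1 : Ψ (g⁻¹ * τ * g) = Ψ g⁻¹ + Ψ τ + Ψ g := by
    rw [hΨ.mul (L.mul_mem (L.inv_mem hg) hτ) hg, hΨ.mul (L.inv_mem hg) hτ]
  have h2 : Ψ g⁻¹ + Ψ g = 0 := by
    rw [← hΨ.mul (L.inv_mem hg) hg, inv_mul_cancel, hΨ.one]
  rw [h1]
  linear_combination h2

/-- Characters unramified at all finite primes are trivial. -/
theorem char_unr (D : IntermediateField k (AlgebraicClosure k)) [FiniteDimensional k D] [NumberField D]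
    [IsTotallyComplex D] (hcl : ¬ p ∣ classNumber D) {Ψ : GF k → ZMod p} (hΨ : IsCh D.fixingSubgroup Ψ)
    (hI : ∀ Q : Ideal (OO k), Q.IsMaximal → ∀ τ ∈ inertia Q, τ ∈ D.fixingSubgroup → Ψ τ = 0) :
    ∀ x ∈ D.fixingSubgroup, Ψ x = 0 := by
  intro x hx
  by_contra hne
  obtain ⟨M, hMn, hMg, hcard, ⟨σ, hσ⟩, hMx, hMr⟩ := exists_ext D hΨ hx hne
  refine no_unramified (K := D) (L := M) hcard hcl (fun P hP => ?_)
  haveI : Algebra.IsIntegral (𝓞 M) (𝓞 (AlgebraicClosure k)) := Algebra.IsIntegral.tower_top (R := ℤ)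
  obtain ⟨Q, hQm, hQP⟩ := Ideal.exists_maximal_ideal_liesOver_of_isIntegral (S := 𝓞 (AlgebraicClosure k)) P
  have hover : P = Q.under (𝓞 M) := hQP.over
  rw [hover]
  exact (hMr Q hQm).1 (hI Q hQm)

/-- Characters which are ramified at most at one tame prime, modulo which some unit is not a `p`-th
power, are trivial. -/
theorem char_tame (D : IntermediateField k (AlgebraicClosure k)) [FiniteDimensional k D] [NumberField D]
    [IsTotallyComplex D] (hcl : ¬ p ∣ classNumber D) {Ψ : GF k → ZMod p} (hΨ : IsCh D.fixingSubgroup Ψ)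
    {P : Ideal (OO k)} (hP : P.IsMaximal) (hpP : (p : OO k) ∉ P) (u : (𝓞 D)ˣ)
    (hu : ∀ z : 𝓞 D, algebraMap (𝓞 D) (OO k) ((u : 𝓞 D) - z ^ p) ∉ P)
    (hI : ∀ Q : Ideal (OO k), Q.IsMaximal → Q.under (𝓞 D) ≠ P.under (𝓞 D) → ∀ τ ∈ inertia Q,
      τ ∈ D.fixingSubgroup → Ψ τ = 0) :
    ∀ x ∈ D.fixingSubgroup, Ψ x = 0 := by
  by_cases hram : ∀ τ ∈ inertia P, τ ∈ D.fixingSubgroup → Ψ τ = 0
  · refine char_unr D hcl hΨ fun Q hQ τ hτ hτD => ?_
    by_cases hQP : Q.under (𝓞 D) = P.under (𝓞 D)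
    · obtain ⟨g, hg, hgQ⟩ := trans_fix D hP.isPrime hQ.isPrime hQP.symm
      have h1 : g⁻¹ * τ * g ∈ inertia P := inertia_conj hgQ hτ
      rw [← ch_conj hΨ hg hτD]
      exact hram _ h1 (D.fixingSubgroup.mul_mem (D.fixingSubgroup.mul_mem (D.fixingSubgroup.inv_mem hg) hτD) hg)
    · exact hI Q hQ hQP τ hτ hτD
  · exfalso
    push Not at hram
    obtain ⟨τ0, hτ0, hτ0D, hne⟩ := hram
    obtain ⟨M, hMn, hMg, hcard, ⟨σ, hσ⟩, hMx, hMr⟩ := exists_ext D hΨ hτ0D hne
    have h0 : ∃ τ ∈ inertia P, τ ∈ D.fixingSubgroup ∧ Ψ τ ≠ 0 := ⟨τ0, hτ0, hτ0D, hne⟩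
    have hin := ((hMr P hP).2 h0).2
    have hR : OneRam D M p (P.under (𝓞 M)) := by
      refine oneRam_of hMr hP h0 fun Q hQ hQτ => ?_
      have hQP : P.under (𝓞 D) = Q.under (𝓞 D) := by
        by_contra hne'
        obtain ⟨τ, hτ, hτD, hτΨ⟩ := hQτ
        exact hτΨ (hI Q hQ (fun h => hne' h.symm) τ hτ hτD)
      obtain ⟨g, hg, hgQ⟩ := trans_fix D hP.isPrime hQ.isPrime hQP
      set e := IntermediateField.fixingSubgroupEquiv D with he
      ext x
      show algebraMap (𝓞 M) (OO k) x ∈ Q ↔ algebraMap (𝓞 M) (OO k) x ∈ P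
      rw [hgQ]
      set γ : Gal(M/D) := AlgEquiv.restrictNormalHom M (e ⟨g⁻¹, D.fixingSubgroup.inv_mem hg⟩) with hγ
      have h2 : algebraMap (𝓞 M) (OO k) (γ • x) = g⁻¹ • algebraMap (𝓞 M) (OO k) x := by
        apply RingOfIntegers.ext
        exact AlgEquiv.restrictNormal_commutes (e ⟨g⁻¹, D.fixingSubgroup.inv_mem hg⟩) M (x : M)
      have h3 : algebraMap (𝓞 M) (OO k) (γ • x) - algebraMap (𝓞 M) (OO k) x ∈ P := by
        rw [← map_sub]; exact hin γ x
      rw [h2] at h3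
      constructor
      · intro h
        have := P.sub_mem h h3
        rwa [sub_sub_cancel] at this
      · intro h
        have := P.add_mem h3 h
        rwa [sub_add_cancel] at this
    obtain ⟨y, hy⟩ := unit_norm hcard hcl hσ hR u
    haveI : Algebra.IsIntegral (𝓞 M) (𝓞 (AlgebraicClosure k)) := Algebra.IsIntegral.tower_top (R := ℤ)
    have hPm : (P.under (𝓞 M)).IsMaximal := Ideal.IsMaximal.under (𝓞 M) P
    obtain ⟨z, hz⟩ := norm_pow hPm (by
      rw [Ideal.mem_comap, map_natCast]; exact hpP) hcard hσ (hin σ) y u hy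
    apply hu z
    have h4 : algebraMap (𝓞 M) (OO k) (algebraMap (𝓞 D) (𝓞 M) ((u : 𝓞 D) - z ^ p)) ∈ P := hz
    exact h4

end

end Pool.Agent.V5helper56.LI
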