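import Mathlib
import Pool.Agent.R384.Z.Pot
import Pool.Agent.TH831.OE.Zt15

/-!
# Images of residually unipotent representations: density of subgroups, for all primes `p`
-/

set_option autoImplicit false
set_option linter.unusedSectionVars false

namespace Pool.Agent.V5helper56.LI

open IsLocalRing Matrix Pool.Agent.Z384

section grp

/-- **Burnside's theorem.** -/
theorem burn {N : Type} [Group N] {p : ℕ} [hp : Fact p.Prime] {U : Subgroup N} (hUn : U.Normal)
    (hUf : Finite (N ⧸ U)) (hU : IsPGroup p (N ⧸ U)) (D : Subgroup N)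
    (hkey : ∀ F : N →* Multiplicative (ZMod p), (∀ σ ∈ U, F σ = 1) → (∀ σ ∈ D, F σ = 1) →
      ∀ σ, F σ = 1) (g : N) : ∃ δ ∈ D, δ⁻¹ * g ∈ U := by
  classical
  set Q : Subgroup (N ⧸ U) := D.map (QuotientGroup.mk' U) with hQ
  rcases eq_top_or_exists_le_coatom Q with h | ⟨M, hM, hle⟩
  · have h1 : (QuotientGroup.mk' U g) ∈ Q := by rw [h]; trivial
    obtain ⟨δ, hδ, hδg⟩ := h1
    exact ⟨δ, hδ, QuotientGroup.eq.1 hδg⟩
  exfalso
  have hnil : Group.IsNilpotent (N ⧸ U) := hU.isNilpotent
  have hMn : M.Normal := Subgroup.NormalizerCondition.normal_of_coatom M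
    Group.normalizerCondition_of_isNilpotent hM
  have hgen : ∀ x : (N ⧸ U) ⧸ M, x ≠ 1 → Subgroup.zpowers x = ⊤ := by
    intro x hx
    have h1 : M < (Subgroup.zpowers x).comap (QuotientGroup.mk' M) := by
      refine lt_of_le_of_ne ?_ ?_
      · intro y hy
        rw [Subgroup.mem_comap]
        have : QuotientGroup.mk' M y = 1 := (QuotientGroup.eq_one_iff y).2 hy
        rw [this]
        exact Subgroup.one_mem _
      · intro h2
        obtain ⟨y, rfl⟩ := QuotientGroup.mk'_surjective M x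
        apply hx
        refine (QuotientGroup.eq_one_iff y).2 ?_
        rw [h2]
        exact Subgroup.mem_zpowers _
    have h2 := hM.2 _ h1
    rw [eq_top_iff]
    rintro z -
    obtain ⟨y, rfl⟩ := QuotientGroup.mk'_surjective M z
    have h3 : y ∈ (Subgroup.zpowers x).comap (QuotientGroup.mk' M) := by
      rw [h2]
      exact Subgroup.mem_top _
    exact h3
  have hcomm : ∀ a b : (N ⧸ U) ⧸ M, a * b = b * a := by
    intro a b
    by_cases ha : a = 1
    · rw [ha, one_mul, mul_one]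
    · have h1 : b ∈ Subgroup.zpowers a := by
        rw [hgen a ha]
        exact Subgroup.mem_top _
      obtain ⟨k, rfl⟩ := h1
      exact (Commute.self_zpow a k).eq
  obtain ⟨e, he⟩ : ∃ e : N ⧸ U, e ∉ M := by
    by_contra hcon
    push Not at hcon
    exact hM.1 (eq_top_iff.2 fun x _ => hcon x)
  obtain ⟨F, x, hx⟩ := Pool.Agent.TH831.OE.exists_char hcomm (hU.to_quotient M)
    (q := QuotientGroup.mk' M e) (fun h => he ((QuotientGroup.eq_one_iff e).1 h))
  obtain ⟨y, rfl⟩ := QuotientGroup.mk'_surjective M x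
  obtain ⟨z, rfl⟩ := QuotientGroup.mk'_surjective U y
  apply hx
  refine hkey ((F.comp (QuotientGroup.mk' M)).comp (QuotientGroup.mk' U)) (fun σ hσ => ?_)
    (fun σ hσ => ?_) z
  · have h1 : QuotientGroup.mk' U σ = 1 := (QuotientGroup.eq_one_iff σ).2 hσ
    show F (QuotientGroup.mk' M (QuotientGroup.mk' U σ)) = 1
    rw [h1, map_one, map_one]
  · have h1 : QuotientGroup.mk' U σ ∈ M := hle ⟨σ, hσ, rfl⟩
    have h2 : QuotientGroup.mk' M (QuotientGroup.mk' U σ) = 1 := (QuotientGroup.eq_one_iff _).2 h1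
    show F (QuotientGroup.mk' M (QuotientGroup.mk' U σ)) = 1
    rw [h2, map_one]

end grp

section mat

variable {A : Type*} [CommRing A] [IsLocalRing A] {n p : ℕ}

lemma inI_one {I : Ideal A} {X : Matrix (Fin n) (Fin n) A} (hX : InI I (X - 1)) (i : ℕ) :
    InI I (X ^ i - 1) := by
  induction i with
  | zero =>
    intro a b
    rw [pow_zero, sub_self]
    exact I.zero_mem
  | succ i ih =>
    have e : X ^ (i + 1) - 1 = X * (X ^ i - 1) + (X - 1) := by
      rw [pow_succ']; noncomm_ring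
    rw [e]
    exact (ih.mulL X).add hX

lemma lift2 (h2 : (p : A) ∈ maximalIdeal A) {X : Matrix (Fin n) (Fin n) A}
    (hX : InI (maximalIdeal A) (X - 1)) (m : ℕ) : InI (maximalIdeal A ^ (m + 1)) (X ^ p ^ m - 1) := by
  induction m with
  | zero => simpa using hX
  | succ m ih =>
    have e : X ^ p ^ (m + 1) - 1 = (X ^ p ^ m - 1) * ∑ i ∈ Finset.range p, (X ^ p ^ m) ^ i := by
      rw [mul_geom_sum, pow_succ p m, pow_mul]
    rw [e, pow_succ (maximalIdeal A)]
    refine ih.mul ?_
    have h1 : ∀ i, InI (maximalIdeal A) ((X ^ p ^ m) ^ i - 1) := by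
      intro i
      rw [← pow_mul]
      exact inI_one hX _
    have e2 : ∑ i ∈ Finset.range p, (X ^ p ^ m) ^ i =
        ∑ i ∈ Finset.range p, ((X ^ p ^ m) ^ i - 1) + (p : A) • (1 : Matrix (Fin n) (Fin n) A) := by
      rw [Finset.sum_sub_distrib, Finset.sum_const, Finset.card_range, Nat.cast_smul_eq_nsmul]
      abel
    rw [e2]
    refine InI.add (fun a b => ?_) (fun a b => ?_)
    · rw [Matrix.sum_apply]
      exact Ideal.sum_mem _ fun i _ => h1 i a b
    · show (p : A) * _ ∈ _
      exact Ideal.mul_mem_right _ _ h2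

lemma lift1 [hp : Fact p.Prime] (h2 : (p : A) ∈ maximalIdeal A) {X : Matrix (Fin n) (Fin n) A} {N : ℕ}
    (hX : InI (maximalIdeal A) ((X - 1) ^ N)) : InI (maximalIdeal A) (X ^ p ^ N - 1) := by
  set f : Matrix (Fin n) (Fin n) A →+* Matrix (Fin n) (Fin n) (ResidueField A) :=
    (residue A).mapMatrix with hf
  have hz : ∀ Z : Matrix (Fin n) (Fin n) A, InI (maximalIdeal A) Z ↔ f Z = 0 := by
    intro Z
    constructor
    · intro h
      ext i j
      exact (residue_eq_zero_iff _).2 (h i j)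
    · intro h i j
      exact (residue_eq_zero_iff _).1 (congrFun (congrFun h i) j)
  have hc : CharP (ResidueField A) p := by
    have h3 : (p : ResidueField A) = 0 := by
      have : residue A (p : A) = 0 := (residue_eq_zero_iff _).2 h2
      rwa [map_natCast] at this
    exact (CharP.charP_iff_prime_eq_zero hp.out).2 h3
  rw [hz] at hX ⊢
  rcases Nat.eq_zero_or_pos n with hn | hn
  · subst hn
    exact Subsingleton.elim _ _
  · have : Nonempty (Fin n) := ⟨⟨0, hn⟩⟩
    have hc2 : CharP (Matrix (Fin n) (Fin n) (ResidueField A)) p := inferInstance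
    have h3 : (f X - 1) ^ p ^ N = f X ^ p ^ N - 1 := by
      have := sub_pow_char_pow_of_commute p N (Commute.one_right (f X))
      rwa [one_pow] at this
    rw [map_sub, map_pow, map_one, ← h3]
    obtain ⟨k, hk⟩ : ∃ k, p ^ N = N + k :=
      ⟨p ^ N - N, by have := Nat.lt_pow_self (n := N) hp.out.one_lt; omega⟩
    rw [hk, pow_add]
    have h4 : (f X - 1) ^ N = 0 := by
      rw [map_pow, map_sub, map_one] at hX
      exact hX
    rw [h4, zero_mul]

end mat

section rep

variable {A : Type*} [CommRing A] [IsLocalRing A] [IsNoetherianRing A] {n p : ℕ} [hp : Fact p.Prime]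
variable {G : Type*} [Group G]

lemma cong_fin (hfin : Finite (ResidueField A)) (ρ : G →* GL (Fin n) A) (m : ℕ) :
    Finite (G ⧸ cong ρ m) := by
  have hf1 : Finite (A ⧸ maximalIdeal A) := hfin
  have hf2 : Finite (A ⧸ maximalIdeal A ^ m) :=
    Ideal.finite_quotient_pow (IsNoetherian.noetherian (maximalIdeal A)) m
  have hf3 : Finite (Matrix (Fin n) (Fin n) (A ⧸ maximalIdeal A ^ m)) := inferInstance
  have hf4 : Finite (GL (Fin n) (A ⧸ maximalIdeal A ^ m)) := Finite.of_injective
    (fun u : GL (Fin n) (A ⧸ maximalIdeal A ^ m) =>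
      (u : Matrix (Fin n) (Fin n) (A ⧸ maximalIdeal A ^ m))) Units.val_injective
  have hf5 : (cong ρ m).FiniteIndex := by
    unfold cong
    infer_instance
  infer_instance

lemma cong_pgroup (h2 : (p : A) ∈ maximalIdeal A) (ρ : G →* GL (Fin n) A)
    (hres : ∀ σ, ∃ N : ℕ, InI (maximalIdeal A) (((ρ σ : Matrix (Fin n) (Fin n) A) - 1) ^ N)) (m : ℕ)
    (hn : (cong ρ m).Normal) : IsPGroup p (G ⧸ cong ρ m) := by
  intro x
  obtain ⟨g, rfl⟩ := QuotientGroup.mk_surjective x
  obtain ⟨N, hN⟩ := hres g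
  refine ⟨N + m, ?_⟩
  rw [← QuotientGroup.mk_pow]
  refine (QuotientGroup.eq_one_iff _).2 (mem_cong.2 ?_)
  have h3 := lift2 h2 (lift1 h2 hN) m
  have e : (ρ (g ^ p ^ (N + m)) : Matrix (Fin n) (Fin n) A) =
      ((ρ g : Matrix (Fin n) (Fin n) A) ^ p ^ N) ^ p ^ m := by
    rw [map_pow, Units.val_pow_eq_pow_val, ← pow_mul, ← pow_add]
  rw [e]
  exact h3.mono (Ideal.pow_le_pow_right (by omega))

end rep

end Pool.Agent.V5helper56.LI
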